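import Pool.Agent.H22.BH.Theta

/-! The coefficients: a dimension count. -/

namespace Pool.H22.BH

open Pool.H22.Rad

section
variable {q M p : ℕ} [NeZero M] (χ : Fin q → ℤ)

/-- the coefficient homomorphism -/
def lam (c : Fin q → ZMod M → Multiplicative (ZMod p)) :
    FreeGroup (Fin q) →* Wr (Multiplicative (ZMod p)) (Multiplicative (ZMod M)) :=
  FreeGroup.lift fun i => ⟨fun y => c i y.toAdd, Multiplicative.ofAdd (χ i : ZMod M)⟩

theorem lam_q (c c' : Fin q → ZMod M → Multiplicative (ZMod p)) (w : FreeGroup (Fin q)) :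
    (lam χ c w).q = (lam χ c' w).q := by
  induction w using FreeGroup.induction_on with
  | C1 => simp
  | of i => simp [lam]
  | inv_of i _ => simp [lam]
  | mul x y hx hy => rw [map_mul, Wr.mul_q, hx, hy, map_mul, Wr.mul_q]

theorem lam_mul (c c' : Fin q → ZMod M → Multiplicative (ZMod p)) (w : FreeGroup (Fin q))
    (y : Multiplicative (ZMod M)) :
    (lam χ (c * c') w).f y = (lam χ c w).f y * (lam χ c' w).f y := by
  induction w using FreeGroup.induction_on generalizing y with
  | C1 => simp
  | of i => simp [lam]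
  | inv_of i _ => simp only [map_inv, Wr.inv_f]; simp [lam, mul_comm]
  | mul v w hv hw =>
    rw [map_mul, Wr.mul_f, hv, hw, map_mul, Wr.mul_f, map_mul, Wr.mul_f,
      lam_q χ (c * c') c v, lam_q χ c' c v]
    exact mul_mul_mul_comm _ _ _ _

/-- extension by the identity on the window -/
def extd (L : ℕ) (d : Fin q × {y : ZMod M // 2 * L ≤ y.val} → ZMod p) :
    Fin q → ZMod M → Multiplicative (ZMod p) :=
  fun i y => if h : 2 * L ≤ y.val then Multiplicative.ofAdd (d (i, ⟨y, h⟩)) else 1

theorem extd_add (L : ℕ) (d d' : Fin q × {y : ZMod M // 2 * L ≤ y.val} → ZMod p) :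
    extd L (d + d') = extd L d * extd L d' := by
  funext i y
  simp only [extd, Pi.mul_apply]
  split_ifs
  · rfl
  · rw [mul_one]

theorem exists_coeff [Fact p.Prime] {k L : ℕ} (ρ : Fin k → FreeGroup (Fin q))
    (hdim : k * M < q * (M - 2 * L)) (hL : 2 * L ≤ M) :
    ∃ c : Fin q → ZMod M → Multiplicative (ZMod p), (∀ i y, y.val < 2 * L → c i y = 1) ∧
      (∃ i y, c i y ≠ 1) ∧ ∀ j y, (lam χ c (ρ j)).f y = 1 := by
  classical
  let S := {y : ZMod M // 2 * L ≤ y.val}
  have : Fintype (ZMod M) := ZMod.fintype M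
  let T0 : (Fin q × S → ZMod p) →+ (Fin k × ZMod M → ZMod p) :=
    { toFun := fun d x => ((lam χ (extd L d) (ρ x.1)).f (Multiplicative.ofAdd x.2)).toAdd
      map_zero' := by
        funext x
        have h1 : extd L (0 : Fin q × S → ZMod p) = 1 := by
          have h2 := extd_add L (0 : Fin q × S → ZMod p) 0
          rw [add_zero] at h2
          exact left_eq_mul.1 h2
        have h3 := lam_mul χ (1 : Fin q → ZMod M → Multiplicative (ZMod p)) 1 (ρ x.1)
          (Multiplicative.ofAdd x.2)
        rw [mul_one] at h3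
        have h4 := left_eq_mul.1 h3
        change ((lam χ (extd L (0 : Fin q × S → ZMod p)) (ρ x.1)).f
          (Multiplicative.ofAdd x.2)).toAdd = 0
        rw [h1, h4]
        rfl
      map_add' := fun d d' => by
        funext x
        change ((lam χ (extd L (d + d')) (ρ x.1)).f (Multiplicative.ofAdd x.2)).toAdd = _
        rw [extd_add, lam_mul]
        rfl }
  let T := T0.toZModLinearMap p
  have hcard : M - 2 * L ≤ Fintype.card S := by
    have hinj : Function.Injective (fun i : Fin (M - 2 * L) =>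
        (⟨((2 * L + i.1 : ℕ) : ZMod M), by
          rw [ZMod.val_natCast, Nat.mod_eq_of_lt (by have := i.2; omega)]; omega⟩ : S)) := by
      intro i j hij
      have h1 : ((2 * L + i.1 : ℕ) : ZMod M).val = ((2 * L + j.1 : ℕ) : ZMod M).val :=
        congrArg (fun s : S => s.1.val) hij
      rw [ZMod.val_natCast, ZMod.val_natCast, Nat.mod_eq_of_lt (by have := i.2; omega), Nat.mod_eq_of_lt (by have := j.2; omega)] at h1
      exact Fin.ext (by omega)
    have h2 := Fintype.card_le_of_injective _ hinj
    rwa [Fintype.card_fin] at h2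
  have hker : LinearMap.ker T ≠ ⊥ := by
    apply LinearMap.ker_ne_bot_of_finrank_lt
    rw [Module.finrank_fintype_fun_eq_card, Module.finrank_fintype_fun_eq_card,
      Fintype.card_prod, Fintype.card_prod, Fintype.card_fin, Fintype.card_fin, ZMod.card]
    exact hdim.trans_le (Nat.mul_le_mul_left q hcard)
  obtain ⟨d, hd, hd0⟩ := (Submodule.ne_bot_iff _).1 hker
  refine ⟨extd L d, ?_, ?_, ?_⟩
  · intro i y hy
    simp only [extd]
    rw [dif_neg (by omega)]
  · obtain ⟨⟨i, y⟩, hx⟩ := Function.ne_iff.1 hd0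
    refine ⟨i, y.1, ?_⟩
    simp only [extd]
    rw [dif_pos y.2]
    exact hx
  · intro j y
    have h1 := congrFun (show T d = 0 from hd) (j, y.toAdd)
    exact h1

end

end Pool.H22.BH
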