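import Mathlib

/-! Finitely presented groups, in the form: every surjection from a finitely generated group
has a kernel that is finitely generated as a normal subgroup. -/

namespace Pool.H22.BH

open scoped commutatorElement

/-- finitely presented groups, in a convenient form -/
def FPS (E : Type) [Group E] : Prop :=
  Group.FG E ∧ ∀ (G : Type) [Group G], Group.FG G → ∀ π : G →* E, Function.Surjective π →
    ∃ X : Set G, X.Finite ∧ π.ker = Subgroup.normalClosure X

theorem FPS.of_finite (E : Type) [Group E] [Finite E] : FPS E := by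
  refine ⟨inferInstance, ?_⟩
  intro G _ hG π hπ
  have : π.ker.FiniteIndex := by
    have e : G ⧸ π.ker ≃* E := QuotientGroup.quotientKerEquivOfSurjective π hπ
    have : Finite (G ⧸ π.ker) := Finite.of_equiv _ e.symm.toEquiv
    exact Subgroup.finiteIndex_of_finite_quotient
  have hfg : Group.FG π.ker := Subgroup.fg_of_index_ne_zero π.ker
  obtain ⟨S, hS⟩ := (Subgroup.fg_iff_submonoid_fg _).1 ((Group.fg_iff_subgroup_fg _).1 hfg) |> 
    fun h => (Subgroup.fg_iff_submonoid_fg π.ker).2 h
  refine ⟨S, S.finite_toSet, ?_⟩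
  apply le_antisymm
  · rw [← hS, Subgroup.closure_le]
    exact Subgroup.subset_normalClosure
  · refine Subgroup.normalClosure_le_normal ?_
    rw [← hS]
    exact Subgroup.subset_closure

/-- finitely generated abelian groups -/
theorem FPS.of_comm (E : Type) [Group E] (hc : ∀ a b : E, a * b = b * a) (hE : Group.FG E) :
    FPS E := by
  refine ⟨hE, ?_⟩
  intro G _ hG π hπ
  obtain ⟨S, hS⟩ := hG.out
  -- the commutators of the generators
  let X : Set G := (fun p : G × G => ⁅p.1, p.2⁆) '' ((S : Set G) ×ˢ (S : Set G))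
  have hX : X.Finite := (S.finite_toSet.prod S.finite_toSet).image _
  let N := Subgroup.normalClosure X
  have hNk : N ≤ π.ker := by
    refine Subgroup.normalClosure_le_normal ?_
    rintro _ ⟨⟨a, b⟩, -, rfl⟩
    change π ⁅a, b⁆ = 1
    rw [map_commutatorElement, commutatorElement_eq_one_iff_mul_comm]
    exact hc _ _
  let Q := G ⧸ N
  have hQ : Group.FG Q := QuotientGroup.fg N
  have hSQ : Subgroup.closure ((QuotientGroup.mk' N) '' (S : Set G)) = ⊤ := by
    rw [← MonoidHom.map_closure, hS, ← MonoidHom.range_eq_map]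
    exact MonoidHom.range_eq_top.2 (QuotientGroup.mk'_surjective N)
  have hQc : ∀ a b : Q, a * b = b * a := by
    have h1 : ∀ x ∈ (QuotientGroup.mk' N) '' (S : Set G), ∀ y ∈ (QuotientGroup.mk' N) '' (S : Set G),
        x * y = y * x := by
      rintro _ ⟨a, ha, rfl⟩ _ ⟨b, hb, rfl⟩
      rw [← commutatorElement_eq_one_iff_mul_comm, ← map_commutatorElement]
      exact (QuotientGroup.eq_one_iff _).2 (Subgroup.subset_normalClosure ⟨(a, b), ⟨ha, hb⟩, rfl⟩)
    have h2 : Subgroup.closure ((QuotientGroup.mk' N) '' (S : Set G)) ≤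
        Subgroup.centralizer (Subgroup.closure ((QuotientGroup.mk' N) '' (S : Set G)) : Set Q) := by
      rw [Subgroup.centralizer_closure]
      rw [Subgroup.closure_le]
      intro x hx
      refine Subgroup.mem_centralizer_iff.2 ?_
      intro y hy
      exact h1 y hy x hx
    rw [hSQ] at h2
    intro a b
    exact (Subgroup.mem_centralizer_iff.1 (h2 (Subgroup.mem_top a)) b (Subgroup.mem_top b)).symm
  -- the kernel in the quotient is finitely generated
  let _ : CommGroup Q := { (inferInstance : Group Q) with mul_comm := hQc }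
  let πQ : Q →* E := QuotientGroup.lift N π (fun x hx => hNk hx)
  have hkfg : πQ.ker.FG := by
    have h3 : Module.Finite ℤ (Additive Q) := by
      rw [Module.Finite.iff_addGroup_fg]
      exact GroupFG.iff_add_fg.1 hQ |> fun h => h
    have h4 : IsNoetherian ℤ (Additive Q) := isNoetherian_of_isNoetherianRing_of_finite ℤ _
    have h5 := h4.noetherian (AddSubgroup.toIntSubmodule (Subgroup.toAddSubgroup πQ.ker))
    rw [Submodule.fg_iff_addSubgroup_fg] at h5
    rw [Subgroup.fg_iff_add_fg]
    simpa using h5
  obtain ⟨Y, hY⟩ := hkfg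
  choose lift hlift using fun x : Q => QuotientGroup.mk_surjective x
  refine ⟨X ∪ lift '' (Y : Set Q), hX.union (Y.finite_toSet.image _), ?_⟩
  apply le_antisymm
  · intro g hg
    have h6 : (g : Q) ∈ Subgroup.closure (Y : Set Q) := by rw [hY]; exact hg
    have h7 : Subgroup.closure (Y : Set Q) ≤
        (Subgroup.normalClosure (X ∪ lift '' (Y : Set Q))).map (QuotientGroup.mk' N) := by
      rw [Subgroup.closure_le]
      intro y hy
      exact ⟨lift y, Subgroup.subset_normalClosure (Or.inr ⟨y, hy, rfl⟩), hlift y⟩
    obtain ⟨z, hz, hzg⟩ := h7 h6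
    have h8 : z⁻¹ * g ∈ N := QuotientGroup.eq.1 hzg
    have h9 : g = z * (z⁻¹ * g) := by group
    rw [h9]
    exact Subgroup.mul_mem _ hz
      (Subgroup.normalClosure_mono Set.subset_union_left h8)
  · refine Subgroup.normalClosure_le_normal ?_
    rintro x (hx | ⟨y, hy, rfl⟩)
    · exact hNk (Subgroup.subset_normalClosure hx)
    · have : y ∈ πQ.ker := hY ▸ Subgroup.subset_closure hy
      rw [← hlift y] at this
      exact this

end Pool.H22.BH
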