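import Pool.Agent.H22.BH.FPS

/-! Closure of finite presentability under extensions. -/

namespace Pool.H22.BH

open scoped commutatorElement

theorem FPS.ext {E Q : Type} [Group E] [Group Q] (f : E →* Q) (hf : Function.Surjective f)
    (hQ : FPS Q) (hN : FPS f.ker) : FPS E := by
  obtain ⟨SN, hSN⟩ := (Group.fg_iff_subgroup_fg _).1 hN.1
  refine ⟨?_, ?_⟩
  · obtain ⟨SQ, hSQ⟩ := hQ.1.out
    choose lift hlift using hf
    refine Group.fg_iff.2 ⟨lift '' (SQ : Set Q) ∪ (SN : Set E), ?_,
      (SQ.finite_toSet.image _).union SN.finite_toSet⟩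
    rw [eq_top_iff]
    intro x _
    set K := Subgroup.closure (lift '' (SQ : Set Q) ∪ (SN : Set E)) with hK
    have h1 : f x ∈ Subgroup.closure (SQ : Set Q) := by rw [hSQ]; exact Subgroup.mem_top _
    have h2 : Subgroup.closure (SQ : Set Q) ≤ K.map f := by
      rw [Subgroup.closure_le]
      intro y hy
      exact ⟨lift y, Subgroup.subset_closure (Or.inl ⟨y, hy, rfl⟩), hlift y⟩
    obtain ⟨z, hz, hzx⟩ := h2 h1
    have h3 : z⁻¹ * x ∈ f.ker := by
      rw [MonoidHom.mem_ker, map_mul, map_inv, hzx, inv_mul_cancel]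
    rw [← hSN] at h3
    have h4 : x = z * (z⁻¹ * x) := by group
    rw [h4]
    exact K.mul_mem hz (Subgroup.closure_mono Set.subset_union_right h3)
  · intro G _ hG π hπ
    obtain ⟨S, hS⟩ := hG.out
    obtain ⟨X, hX, hXk⟩ := hQ.2 G hG (f.comp π) (hf.comp hπ)
    choose lift hlift using hπ
    let M0 : Subgroup G := Subgroup.closure (lift '' (SN : Set E))
    -- every element of the kernel of `f ∘ π` is in `M0 * ker π`
    have hM : ∀ m : G, f (π m) = 1 → ∃ m0 ∈ M0, π m0 = π m := by
      intro m hm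
      have h1 : π m ∈ Subgroup.closure (SN : Set E) := by rw [hSN]; exact hm
      have h2 : Subgroup.closure (SN : Set E) ≤ M0.map π := by
        rw [Subgroup.closure_le]
        intro y hy
        exact ⟨lift y, Subgroup.subset_closure ⟨y, hy, rfl⟩, hlift y⟩
      obtain ⟨m0, h3, h4⟩ := h2 h1
      exact ⟨m0, h3, h4⟩
    have hM0 : ∀ m ∈ M0, f (π m) = 1 := by
      intro m hm
      have : M0 ≤ (f.comp π).ker := by
        rw [Subgroup.closure_le]
        rintro _ ⟨y, hy, rfl⟩
        change f (π (lift y)) = 1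
        rw [hlift]
        have : y ∈ f.ker := hSN ▸ Subgroup.subset_closure hy
        exact this
      exact this hm
    choose! c hc1 hc2 using hM
    have hMn : ∀ g y, f (π y) = 1 → f (π (g * y * g⁻¹)) = 1 := by
      intro g y hy
      simp [hy]
    -- the finitely many correction terms
    let S' : Set G := (S : Set G) ∪ (S : Set G)⁻¹
    have hS' : S'.Finite := S.finite_toSet.union S.finite_toSet.inv
    let T0 : Set G := (fun x => (c x)⁻¹ * x) '' X ∪
      (fun p : G × E => (c (p.1 * lift p.2 * p.1⁻¹))⁻¹ * (p.1 * lift p.2 * p.1⁻¹)) ''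
        (S' ×ˢ (SN : Set E))
    have hT0 : T0.Finite := (hX.image _).union ((hS'.prod SN.finite_toSet).image _)
    have hXm : ∀ x ∈ X, f (π x) = 1 := by
      intro x hx
      have : x ∈ (f.comp π).ker := hXk ▸ Subgroup.subset_normalClosure hx
      exact this
    have hSNm : ∀ y ∈ SN, f (π (lift y)) = 1 := by
      intro y hy
      exact hM0 _ (Subgroup.subset_closure ⟨y, hy, rfl⟩)
    let T1 := Subgroup.normalClosure T0
    have hT1 : T1 ≤ π.ker := by
      refine Subgroup.normalClosure_le_normal ?_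
      rintro _ (⟨x, hx, rfl⟩ | ⟨⟨g, y⟩, ⟨-, hy⟩, rfl⟩)
      · change π ((c x)⁻¹ * x) = 1
        rw [map_mul, map_inv, hc2 x (hXm x hx), inv_mul_cancel]
      · change π ((c (g * lift y * g⁻¹))⁻¹ * (g * lift y * g⁻¹)) = 1
        rw [map_mul, map_inv, hc2 _ (hMn g _ (hSNm y hy)), inv_mul_cancel]
    let L := M0 ⊔ T1
    have hLc : ∀ g ∈ S', ∀ x ∈ L, g * x * g⁻¹ ∈ L := by
      intro g hg
      have : L ≤ L.comap (MulAut.conj g).toMonoidHom := by
        refine sup_le ?_ ?_
        · rw [Subgroup.closure_le]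
          rintro _ ⟨y, hy, rfl⟩
          change g * lift y * g⁻¹ ∈ L
          have h1 : g * lift y * g⁻¹ =
              c (g * lift y * g⁻¹) * ((c (g * lift y * g⁻¹))⁻¹ * (g * lift y * g⁻¹)) := by group
          rw [h1]
          refine L.mul_mem (Subgroup.mem_sup_left (hc1 _ (hMn g _ (hSNm y hy)))) ?_
          exact Subgroup.mem_sup_right (Subgroup.subset_normalClosure
            (Or.inr ⟨(g, y), ⟨hg, hy⟩, rfl⟩))
        · intro x hx
          change g * x * g⁻¹ ∈ L
          exact Subgroup.mem_sup_right (Subgroup.normalClosure_normal.conj_mem x hx g)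
      exact fun x hx => this hx
    have hLn : L.Normal := by
      have h1 : (⊤ : Subgroup G) ≤ Subgroup.normalizer (L : Set G) := by
        rw [← hS, Subgroup.closure_le]
        intro g hg
        refine Subgroup.mem_normalizer_iff.2 fun x => ⟨fun hx => hLc g (Or.inl hg) x hx, ?_⟩
        intro hx
        have h2 : g⁻¹ ∈ S' := Or.inr (by simpa using hg)
        have h3 := hLc g⁻¹ h2 _ hx
        have h4 : g⁻¹ * (g * x * g⁻¹) * g⁻¹⁻¹ = x := by group
        rwa [h4] at h3
      exact Subgroup.normalizer_eq_top_iff.1 (top_le_iff.1 h1)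
    have hML : ∀ m, f (π m) = 1 → m ∈ L := by
      intro m hm
      have h1 : m ∈ (f.comp π).ker := hm
      rw [hXk] at h1
      refine Subgroup.normalClosure_le_normal (N := L) ?_ h1
      intro x hx
      have h2 : x = c x * ((c x)⁻¹ * x) := by group
      change x ∈ L
      rw [h2]
      exact L.mul_mem (Subgroup.mem_sup_left (hc1 _ (hXm x hx)))
        (Subgroup.mem_sup_right (Subgroup.subset_normalClosure (Or.inl ⟨x, hx, rfl⟩)))
    -- the kernel on `M0`
    let ψ : M0 →* f.ker := (π.comp M0.subtype).codRestrict f.ker (fun m => hM0 m.1 m.2)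
    have hψ : Function.Surjective ψ := by
      rintro ⟨y, hy⟩
      have h1 : y ∈ Subgroup.closure (SN : Set E) := by rw [hSN]; exact hy
      have h2 : Subgroup.closure (SN : Set E) ≤ M0.map π := by
        rw [Subgroup.closure_le]
        intro y hy
        exact ⟨lift y, Subgroup.subset_closure ⟨y, hy, rfl⟩, hlift y⟩
      obtain ⟨m0, h3, h4⟩ := h2 h1
      exact ⟨⟨m0, h3⟩, Subtype.ext h4⟩
    have hM0fg : Group.FG M0 := by
      rw [Group.fg_iff_subgroup_fg]
      exact (Subgroup.fg_iff _).2 ⟨_, rfl, SN.finite_toSet.image _⟩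
    obtain ⟨Y, hY, hYk⟩ := hN.2 M0 hM0fg ψ hψ
    let Y' : Set G := Subtype.val '' Y
    refine ⟨T0 ∪ Y', hT0.union (hY.image _), ?_⟩
    apply le_antisymm
    · intro t ht
      have h1 : t ∈ L := hML t (by rw [show π t = 1 from ht, map_one])
      obtain ⟨m, hm, u, hu, hmu⟩ := Subgroup.mem_sup_of_normal_right.1 h1
      have h2 : π m = 1 := by
        have h3 : π (m * u) = 1 := by rw [hmu]; exact ht
        rwa [map_mul, show π u = 1 from hT1 hu, mul_one] at h3
      have h3 : (⟨m, hm⟩ : M0) ∈ ψ.ker := Subtype.ext h2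
      rw [hYk] at h3
      have h4 : Subgroup.normalClosure Y ≤ (Subgroup.normalClosure (T0 ∪ Y')).comap M0.subtype := by
        refine Subgroup.normalClosure_le_normal ?_
        intro y hy
        exact Subgroup.subset_normalClosure (Or.inr ⟨y, hy, rfl⟩)
      rw [← hmu]
      exact Subgroup.mul_mem _ (h4 h3) (Subgroup.normalClosure_mono Set.subset_union_left hu)
    · refine Subgroup.normalClosure_le_normal ?_
      rintro x (hx | ⟨y, hy, rfl⟩)
      · exact hT1 (Subgroup.subset_normalClosure hx)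
      · have h5 : y ∈ ψ.ker := hYk ▸ Subgroup.subset_normalClosure hy
        exact congrArg Subtype.val (show ψ y = 1 from h5)

theorem FPS.of_surj_of_normalClosure {E F : Type} [Group E] [Group F] (π : F →* E)
    (hE : FPS E) (hF : Group.FG F) (hπ : Function.Surjective π) :
    ∃ X : Set F, X.Finite ∧ π.ker = Subgroup.normalClosure X := hE.2 F hF π hπ

end Pool.H22.BH
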