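import Mathlib

/-! `H₂(E;ℤ)` as the image of the 2-cycles in (2-chains)/(2-boundaries). -/

namespace Pool.H22.BH

open groupHomology

variable (E : Type) [Group E]

/-- the trivial coefficient module -/
abbrev TZ : Rep ℤ E := Rep.trivial ℤ E ℤ

/-- the second differential as a linear map -/
noncomputable def d21 : (E × E →₀ ℤ) →ₗ[ℤ] (E →₀ ℤ) := (d₂₁ (TZ E)).hom

/-- the 2-boundaries -/
noncomputable def B2 : Submodule ℤ (E × E →₀ ℤ) := boundaries₂ (TZ E)

theorem d21_single (g h : E) (n : ℤ) :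
    d21 E (Finsupp.single (g, h) n) =
      Finsupp.single h n - Finsupp.single (g * h) n + Finsupp.single g n := by
  have := d₂₁_single (A := TZ E) (g, h) n
  simpa [d21] using this

theorem B2_single (g h k : E) (n : ℤ) :
    (Finsupp.single (h, k) n - Finsupp.single (g * h, k) n + Finsupp.single (g, h * k) n
      - Finsupp.single (g, h) n : E × E →₀ ℤ) ∈ B2 E := by
  have := d₃₂_single (A := TZ E) (g, h, k) n
  refine ⟨Finsupp.single (g, h, k) n, ?_⟩
  simpa using this

/-- linear maps killing the elementary boundaries kill all boundaries -/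
theorem le_of_single {M : Type*} [AddCommGroup M] [Module ℤ M] (ρ : (E × E →₀ ℤ) →ₗ[ℤ] M)
    (h : ∀ g h k : E, ρ (Finsupp.single (h, k) 1) - ρ (Finsupp.single (g * h, k) 1)
      + ρ (Finsupp.single (g, h * k) 1) - ρ (Finsupp.single (g, h) 1) = 0) :
    B2 E ≤ LinearMap.ker ρ := by
  rintro _ ⟨x, rfl⟩
  rw [LinearMap.mem_ker]
  change (ρ ∘ₗ (d₃₂ (TZ E)).hom) x = 0
  have : ρ ∘ₗ (d₃₂ (TZ E)).hom = 0 := by
    refine Finsupp.lhom_ext' fun a => LinearMap.ext_ring ?_
    obtain ⟨g, h', k⟩ := a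
    have h1 := d₃₂_single (A := TZ E) (g, h', k) 1
    change ρ ((d₃₂ (TZ E)).hom (Finsupp.single (g, h', k) 1)) = 0
    have h2 : (d₃₂ (TZ E)).hom (Finsupp.single (g, h', k) 1) =
      (Finsupp.single (h', k) 1 - Finsupp.single (g * h', k) 1 + Finsupp.single (g, h' * k) 1
      - Finsupp.single (g, h') 1 : E × E →₀ ℤ) := by simpa using h1
    rw [h2, map_sub, map_add, map_sub]
    exact h g h' k
  rw [this]; rfl

theorem H2_finite_iff : Module.Finite ℤ (groupHomology (TZ E) 2) ↔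
    ((LinearMap.ker (d21 E)).map (B2 E).mkQ).FG := by
  let f : cycles₂ (TZ E) →ₗ[ℤ] ((E × E →₀ ℤ) ⧸ B2 E) := (B2 E).mkQ ∘ₗ (cycles₂ (TZ E)).subtype
  have hr : LinearMap.range f = (LinearMap.ker (d21 E)).map (B2 E).mkQ := by
    rw [LinearMap.range_comp, Submodule.range_subtype]; rfl
  let g : cycles₂ (TZ E) →ₗ[ℤ] H2 (TZ E) := (H2π (TZ E)).hom
  have hg : Function.Surjective g := (ModuleCat.epi_iff_surjective _).1 inferInstance
  have hk : LinearMap.ker f = LinearMap.ker g := by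
    ext x
    rw [LinearMap.mem_ker, LinearMap.mem_ker]
    change (B2 E).mkQ x.1 = 0 ↔ H2π (TZ E) x = 0
    rw [H2π_eq_zero_iff]
    exact Submodule.Quotient.mk_eq_zero _
  have e : H2 (TZ E) ≃ₗ[ℤ] LinearMap.range f :=
    (LinearMap.quotKerEquivOfSurjective g hg).symm.trans
      ((Submodule.quotEquivOfEq _ _ hk.symm).trans f.quotKerEquivRange)
  rw [← hr, ← Module.Finite.iff_fg]
  exact ⟨fun _ => Module.Finite.equiv e, fun _ => Module.Finite.equiv e.symm⟩

end Pool.H22.BH
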