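import Pool.Agent.H22.BH.H2a

/-! Finitely presented groups have finitely generated `H₂`. -/

namespace Pool.H22.BH

/-- the central extension with the given cocycle -/
@[ext] structure CExt {E U : Type} [Group E] [AddCommGroup U] (β : E → E → U) where
  /-- the central part -/
  u : U
  /-- the group part -/
  g : E

/-- the cocycle identity -/
def Coc {E U : Type} [Group E] [AddCommGroup U] (β : E → E → U) : Prop :=
  ∀ g h k : E, β g h + β (g * h) k = β h k + β g (h * k)

section
variable {E U : Type} [Group E] [AddCommGroup U] {β : E → E → U}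

theorem Coc.one_left (h : Coc β) (g : E) : β 1 g = β 1 1 := by
  have := h 1 1 g
  simp only [mul_one, one_mul] at this
  exact (add_right_cancel this).symm

theorem Coc.one_right (h : Coc β) (g : E) : β g 1 = β 1 1 := by
  have := h g 1 1
  simp only [mul_one] at this
  exact add_right_cancel this

theorem Coc.inv_comm (h : Coc β) (g : E) : β g g⁻¹ = β g⁻¹ g := by
  have h1 := h g g⁻¹ g
  rw [mul_inv_cancel, inv_mul_cancel, h.one_left g, h.one_right g] at h1
  exact add_right_cancel h1

instance : Mul (CExt β) := ⟨fun x y => ⟨x.u + y.u + β x.g y.g, x.g * y.g⟩⟩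
instance : One (CExt β) := ⟨⟨-β 1 1, 1⟩⟩
instance : Inv (CExt β) := ⟨fun x => ⟨-x.u - β x.g⁻¹ x.g - β 1 1, x.g⁻¹⟩⟩

theorem CExt.mul_u (x y : CExt β) : (x * y).u = x.u + y.u + β x.g y.g := rfl
theorem CExt.mul_g (x y : CExt β) : (x * y).g = x.g * y.g := rfl
theorem CExt.one_u : (1 : CExt β).u = -β 1 1 := rfl
theorem CExt.one_g : (1 : CExt β).g = 1 := rfl
theorem CExt.inv_u (x : CExt β) : (x⁻¹).u = -x.u - β x.g⁻¹ x.g - β 1 1 := rfl
theorem CExt.inv_g (x : CExt β) : (x⁻¹).g = x.g⁻¹ := rfl

/-- the group structure -/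
@[reducible] def CExt.group (h : Coc β) : Group (CExt β) :=
  Group.ofLeftAxioms
    (by
      intro a b c
      ext
      · simp only [CExt.mul_u, CExt.mul_g]
        have := h a.g b.g c.g
        calc a.u + b.u + β a.g b.g + c.u + β (a.g * b.g) c.g
            = a.u + b.u + c.u + (β a.g b.g + β (a.g * b.g) c.g) := by abel
          _ = _ := by rw [this]; abel
      · simp only [CExt.mul_g, mul_assoc])
    (by
      intro a
      ext
      · simp only [CExt.mul_u, CExt.one_u, CExt.one_g, h.one_left]; abel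
      · simp only [CExt.mul_g, CExt.one_g, one_mul])
    (by
      intro a
      ext
      · simp only [CExt.mul_u, CExt.inv_u, CExt.inv_g, CExt.one_u]; abel
      · simp only [CExt.mul_g, CExt.inv_g, CExt.one_g, inv_mul_cancel])

end

theorem H2_fin_of_fp {E : Type} [Group E] {n : ℕ} (π : FreeGroup (Fin n) →* E)
    (hπ : Function.Surjective π) (X : Set (FreeGroup (Fin n))) (hX : X.Finite)
    (hker : π.ker = Subgroup.normalClosure X) :
    Module.Finite ℤ (groupHomology (TZ E) 2) := by
  classical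
  rw [H2_finite_iff]
  let U := (E × E →₀ ℤ) ⧸ B2 E
  let β : E → E → U := fun g h => (B2 E).mkQ (Finsupp.single (g, h) 1)
  have hβ : Coc β := by
    intro g h k
    have := B2_single E g h k 1
    have h2 : (B2 E).mkQ (Finsupp.single (h, k) 1 - Finsupp.single (g * h, k) 1
      + Finsupp.single (g, h * k) 1 - Finsupp.single (g, h) 1) = 0 :=
      (Submodule.Quotient.mk_eq_zero _).2 this
    simp only [map_add, map_sub] at h2
    have h3 : β h k - β (g * h) k + β g (h * k) - β g h = 0 := h2
    have h4 : β h k + β g (h * k) - (β g h + β (g * h) k) = 0 := by rw [← h3]; abel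
    exact (sub_eq_zero.1 h4).symm
  let _ : Group (CExt β) := CExt.group hβ
  let lam : FreeGroup (Fin n) →* CExt β := FreeGroup.lift fun i => ⟨0, π (FreeGroup.of i)⟩
  let pr : CExt β →* E :=
    { toFun := fun x => x.g, map_one' := rfl, map_mul' := fun _ _ => rfl }
  have hpr : ∀ w, (lam w).g = π w := by
    intro w
    have : pr.comp lam = π := by
      ext i
      simp [lam, pr]
    exact DFunLike.congr_fun this w
  -- the value on the kernel
  let U0 : Submodule ℤ U := Submodule.span ℤ ((fun w => (lam w).u + β 1 1) '' X)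
  have hU0fg : U0.FG := Submodule.fg_span (hX.image _)
  -- kernel elements land in U0
  let N0 : Subgroup (FreeGroup (Fin n)) :=
    { carrier := {w | π w = 1 ∧ (lam w).u + β 1 1 ∈ U0}
      one_mem' := by
        refine ⟨map_one _, ?_⟩
        rw [map_one, CExt.one_u, neg_add_cancel]
        exact U0.zero_mem
      mul_mem' := by
        rintro a b ⟨ha, ha'⟩ ⟨hb, hb'⟩
        refine ⟨by rw [map_mul, ha, hb, one_mul], ?_⟩
        rw [map_mul, CExt.mul_u, hpr, hpr, ha, hb]
        have : (lam a).u + (lam b).u + β 1 1 + β 1 1 =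
          ((lam a).u + β 1 1) + ((lam b).u + β 1 1) := by abel
        rw [this]
        exact U0.add_mem ha' hb'
      inv_mem' := by
        rintro a ⟨ha, ha'⟩
        refine ⟨by rw [map_inv, ha, inv_one], ?_⟩
        rw [map_inv, CExt.inv_u, hpr, ha, inv_one]
        have : -(lam a).u - β 1 1 - β 1 1 + β 1 1 = -((lam a).u + β 1 1) := by abel
        rw [this]
        exact U0.neg_mem ha' }
  have hN0 : N0.Normal := by
    constructor
    rintro a ⟨ha, ha'⟩ g
    refine ⟨by rw [map_mul, map_mul, ha, mul_one, map_inv, mul_inv_cancel], ?_⟩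
    rw [map_mul, map_mul, map_inv, CExt.mul_u, CExt.mul_u, CExt.mul_g, CExt.inv_u, CExt.inv_g,
      hpr, hpr, ha, mul_one, hβ.one_right]
    rw [hβ.inv_comm]
    have : (lam g).u + (lam a).u + β 1 1 +
        (-(lam g).u - β (π g)⁻¹ (π g) - β 1 1) + β (π g)⁻¹ (π g) + β 1 1
        = (lam a).u + β 1 1 := by abel
    rw [this]
    exact ha'
  have hker0 : π.ker ≤ N0 := by
    rw [hker]
    have := hN0
    refine Subgroup.normalClosure_le_normal ?_
    intro x hx
    refine ⟨?_, Submodule.subset_span ⟨x, hx, rfl⟩⟩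
    have : x ∈ π.ker := hker ▸ Subgroup.subset_normalClosure hx
    exact this
  -- the section
  let s : E → FreeGroup (Fin n) := Function.surjInv hπ
  have hs : ∀ g, π (s g) = g := Function.surjInv_eq hπ
  let σ : (E →₀ ℤ) →ₗ[ℤ] (U ⧸ U0) :=
    Finsupp.lift (U ⧸ U0) ℤ E fun g => U0.mkQ (lam (s g)).u
  have hσ : ∀ g, σ (Finsupp.single g 1) = U0.mkQ (lam (s g)).u := by
    intro g
    simp [σ]
  have key : U0.mkQ ∘ₗ (B2 E).mkQ = -(σ ∘ₗ d21 E) := by
    refine Finsupp.lhom_ext' fun a => LinearMap.ext_ring ?_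
    obtain ⟨g, h⟩ := a
    change U0.mkQ ((B2 E).mkQ (Finsupp.single (g, h) 1)) = -(σ (d21 E (Finsupp.single (g, h) 1)))
    rw [d21_single, map_add, map_sub, hσ, hσ, hσ]
    change U0.mkQ (β g h) = _
    rw [← map_sub, ← map_add, ← map_neg, ← sub_eq_zero, ← map_sub]
    refine (Submodule.Quotient.mk_eq_zero _).2 ?_
    -- the relation s g * s h * (s (g h))⁻¹ in the kernel
    have hk : s g * s h * (s (g * h))⁻¹ ∈ N0 := by
      refine hker0 ?_
      rw [MonoidHom.mem_ker, map_mul, map_mul, map_inv, hs, hs, hs, mul_inv_cancel]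
    have h2 := hk.2
    rw [map_mul, map_mul, map_inv, CExt.mul_u, CExt.mul_u, CExt.mul_g, CExt.inv_u, CExt.inv_g,
      hpr, hpr, hpr, hs, hs, hs] at h2
    rw [hβ.inv_comm] at h2
    have h4 : β g h - -((lam (s h)).u - (lam (s (g * h))).u + (lam (s g)).u) =
      (lam (s g)).u + (lam (s h)).u + β g h + (-(lam (s (g * h))).u - β (g * h)⁻¹ (g * h) - β 1 1)
        + β (g * h)⁻¹ (g * h) + β 1 1 := by abel
    rw [h4]
    exact h2
  have hle : (LinearMap.ker (d21 E)).map (B2 E).mkQ ≤ U0 := by
    rintro _ ⟨z, hz, rfl⟩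
    have h1 := LinearMap.congr_fun key z
    have h2 : d21 E z = 0 := hz
    rw [LinearMap.neg_apply, LinearMap.comp_apply, LinearMap.comp_apply, h2, map_zero,
      neg_zero] at h1
    exact (Submodule.Quotient.mk_eq_zero _).1 h1
  have : Module.Finite ℤ U0 := Module.Finite.iff_fg.2 hU0fg
  have hN : IsNoetherian ℤ U0 := isNoetherian_of_isNoetherianRing_of_finite ℤ U0
  exact (isNoetherian_submodule.1 hN) _ hle

end Pool.H22.BH
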