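import Pool.Agent.H22.BH.H2a

/-! If `H₂(G/N)` is finitely generated and `G` is finitely generated then `N/[N,G]` is
finitely generated. -/

namespace Pool.H22.BH

open QuotientGroup
open scoped IsMulCommutative commutatorElement

theorem ker_fg_of_H2 {T E : Type} [Group T] [Group E] (π : T →* E)
    (hπ : Function.Surjective π) (hc : π.ker ≤ Subgroup.center T) (hT : Group.FG T)
    (hH : Module.Finite ℤ (groupHomology (TZ E) 2)) :
    ∃ X : Set T, X.Finite ∧ Subgroup.closure X = π.ker := by
  classical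
  rw [H2_finite_iff] at hH
  let s : E → T := Function.surjInv hπ
  have hs : ∀ g, π (s g) = g := Function.surjInv_eq hπ
  let Z := Additive (Subgroup.center T)
  -- central elements from kernel elements
  let cz : π.ker → Z := fun x => Additive.ofMul ⟨x.1, hc x.2⟩
  have hf : ∀ g h, s g * s h * (s (g * h))⁻¹ ∈ π.ker := by
    intro g h
    rw [MonoidHom.mem_ker, map_mul, map_mul, map_inv, hs, hs, hs, mul_inv_cancel]
  let f : E → E → Z := fun g h => cz ⟨_, hf g h⟩
  let ρ : (E × E →₀ ℤ) →ₗ[ℤ] Z := Finsupp.lift Z ℤ (E × E) fun a => f a.1 a.2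
  have hρ : ∀ g h, ρ (Finsupp.single (g, h) 1) = f g h := by
    intro g h
    simp [ρ]
  have hfv : ∀ g h, ((f g h).toMul : T) = s g * s h * (s (g * h))⁻¹ := fun _ _ => rfl
  have hcz : ∀ (a b : Z), a.toMul = b.toMul → a = b := fun a b h => h
  -- cocycle identity
  have hB : B2 E ≤ LinearMap.ker ρ := by
    refine le_of_single E ρ ?_
    intro g h k
    rw [hρ, hρ, hρ, hρ]
    have : f h k + f g (h * k) = f g h + f (g * h) k := by
      apply hcz
      apply Subtype.ext
      rw [toMul_add, toMul_add, Subgroup.coe_mul, Subgroup.coe_mul, hfv, hfv, hfv, hfv]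
      have hcen : ∀ y : T, y * (s h * s k * (s (h * k))⁻¹) = (s h * s k * (s (h * k))⁻¹) * y :=
        fun y => Subgroup.mem_center_iff.1 (hc (hf h k)) y
      calc s h * s k * (s (h * k))⁻¹ * (s g * s (h * k) * (s (g * (h * k)))⁻¹)
          = (s h * s k * (s (h * k))⁻¹ * s g) * s (h * k) * (s (g * (h * k)))⁻¹ := by group
        _ = (s g * (s h * s k * (s (h * k))⁻¹)) * s (h * k) * (s (g * (h * k)))⁻¹ := by
            rw [hcen (s g)]
        _ = s g * s h * (s (g * h))⁻¹ * (s (g * h) * s k * (s (g * h * k))⁻¹) := by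
            rw [← mul_assoc g h k]; group
    have h2 : f h k - f (g * h) k + f g (h * k) - f g h =
      (f h k + f g (h * k)) - (f g h + f (g * h) k) := by abel
    rw [h2, this, sub_self]
  -- the image of the cycles
  let C : Submodule ℤ Z :=
    { carrier := {a | (a.toMul : T) ∈ π.ker}
      add_mem' := fun {a b} ha hb => π.ker.mul_mem ha hb
      zero_mem' := π.ker.one_mem
      smul_mem' := fun n a ha => by
        change ((n • a).toMul : T) ∈ π.ker
        rw [toMul_zsmul]
        exact π.ker.zpow_mem ha n }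
  have hcyc : ((LinearMap.ker (d21 E)).map ρ).FG := by
    have h1 : ρ = ((B2 E).liftQ ρ hB) ∘ₗ (B2 E).mkQ := ((B2 E).liftQ_mkQ ρ hB).symm
    rw [h1, Submodule.map_comp]
    exact hH.map _
  -- the abelian quotient
  let R : Submodule ℤ (Z × (E →₀ ℤ)) := LinearMap.range (ρ.prod (-(d21 E)))
  let Q := (Z × (E →₀ ℤ)) ⧸ R
  have hmem : ∀ x : T, x * (s (π x))⁻¹ ∈ π.ker := by
    intro x
    rw [MonoidHom.mem_ker, map_mul, map_inv, hs, mul_inv_cancel]
  have hR : ∀ g h : E, R.mkQ (0, Finsupp.single g 1) + R.mkQ (0, Finsupp.single h 1) =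
      R.mkQ (f g h, Finsupp.single (g * h) 1) := by
    intro g h
    rw [← map_add, ← sub_eq_zero, ← map_sub]
    refine (Submodule.Quotient.mk_eq_zero _).2 ⟨-Finsupp.single (g, h) 1, ?_⟩
    rw [map_neg, LinearMap.prod_apply]
    change -(ρ (Finsupp.single (g, h) 1), -(d21 E (Finsupp.single (g, h) 1))) = _
    rw [hρ, d21_single]
    ext1
    · simp
    · simp only [Prod.snd_neg, neg_neg, Prod.snd_sub, Prod.snd_add]
      abel
  let θ0 : T → Q := fun x => R.mkQ (cz ⟨_, hmem x⟩, Finsupp.single (π x) 1)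
  have hθ0 : ∀ x y, θ0 (x * y) = θ0 x + θ0 y := by
    intro x y
    have e1 : ∀ z : T, θ0 z = R.mkQ (cz ⟨_, hmem z⟩, 0) + R.mkQ (0, Finsupp.single (π z) 1) := by
      intro z
      rw [← map_add]
      simp [θ0]
    have e2 : cz ⟨_, hmem (x * y)⟩ + 0 =
        cz ⟨_, hmem x⟩ + cz ⟨_, hmem y⟩ + f (π x) (π y) := by
      rw [add_zero]
      apply hcz
      apply Subtype.ext
      rw [toMul_add, toMul_add, Subgroup.coe_mul, Subgroup.coe_mul, hfv]
      change x * y * (s (π (x * y)))⁻¹ = x * (s (π x))⁻¹ * (y * (s (π y))⁻¹) * _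
      have hcen := Subgroup.mem_center_iff.1 (hc (hmem y)) (s (π x))⁻¹
      rw [map_mul]
      calc x * y * (s (π x * π y))⁻¹
          = x * ((y * (s (π y))⁻¹) * (s (π x))⁻¹) * (s (π x) * s (π y) * (s (π x * π y))⁻¹) := by
            group
        _ = x * ((s (π x))⁻¹ * (y * (s (π y))⁻¹)) * (s (π x) * s (π y) * (s (π x * π y))⁻¹) := by
            rw [hcen]
        _ = _ := by group
    calc θ0 (x * y) = R.mkQ (cz ⟨_, hmem (x * y)⟩ + 0, Finsupp.single (π x * π y) 1) := by
          rw [add_zero]; simp only [θ0, map_mul]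
      _ = R.mkQ (cz ⟨_, hmem x⟩, 0) + R.mkQ (cz ⟨_, hmem y⟩, 0) +
          R.mkQ (f (π x) (π y), Finsupp.single (π x * π y) 1) := by
          rw [e2]
          have e4 : ((cz ⟨_, hmem x⟩ + cz ⟨_, hmem y⟩ + f (π x) (π y),
              Finsupp.single (π x * π y) 1) : Z × (E →₀ ℤ)) =
              (cz ⟨_, hmem x⟩, 0) + (cz ⟨_, hmem y⟩, 0) +
              (f (π x) (π y), Finsupp.single (π x * π y) 1) := by simp
          rw [e4, LinearMap.map_add, LinearMap.map_add]
      _ = θ0 x + θ0 y := by rw [← hR, e1 x, e1 y]; abel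
  let θ : T →* Multiplicative Q := MonoidHom.mk' (fun x => Multiplicative.ofAdd (θ0 x))
    (fun x y => by rw [hθ0]; rfl)
  -- the image is a finitely generated module
  obtain ⟨gen, hgen⟩ := hT.out
  let I : Submodule ℤ Q := Submodule.span ℤ (θ0 '' gen)
  have hI : ∀ x, θ0 x ∈ I := by
    let S : Subgroup T :=
      { carrier := {x | θ0 x ∈ I}
        one_mem' := by
          change θ0 1 ∈ I
          have : θ0 1 = 0 := by
            have := hθ0 1 1
            rw [mul_one] at this
            exact left_eq_add.1 this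
          rw [this]; exact I.zero_mem
        mul_mem' := fun {a b} ha hb => by
          change θ0 (a * b) ∈ I
          rw [hθ0]; exact I.add_mem ha hb
        inv_mem' := fun {a} ha => by
          change θ0 a⁻¹ ∈ I
          have h1 : θ0 1 = 0 := by
            have := hθ0 1 1
            rw [mul_one] at this
            exact left_eq_add.1 this
          have h2 : θ0 a⁻¹ = - θ0 a := by
            have := hθ0 a⁻¹ a
            rw [inv_mul_cancel, h1] at this
            exact (neg_eq_of_add_eq_zero_left this.symm).symm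
          rw [h2]; exact I.neg_mem ha }
    have : S = ⊤ := by
      rw [eq_top_iff, ← hgen, Subgroup.closure_le]
      intro x hx
      exact Submodule.subset_span ⟨x, hx, rfl⟩
    intro x
    have hx : x ∈ S := this ▸ Subgroup.mem_top x
    exact hx
  have hIfg : I.FG := Submodule.fg_span ((Finset.finite_toSet gen).image _)
  let ι : Z →ₗ[ℤ] Q := R.mkQ ∘ₗ LinearMap.inl ℤ Z (E →₀ ℤ)
  have hθc : ∀ a ∈ C, ι a = θ0 (a.toMul : T) := by
    intro a ha
    have h1 : θ0 1 = 0 := by
      have := hθ0 1 1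
      rw [mul_one] at this
      exact left_eq_add.1 this
    have e3 : θ0 (a.toMul : T) - θ0 1 = ι a := by
      simp only [θ0, ι, LinearMap.comp_apply, LinearMap.inl_apply]
      rw [← map_sub]
      congr 1
      have hpa : π (a.toMul : T) = 1 := ha
      ext1
      · simp only [Prod.fst_sub]
        apply hcz
        apply Subtype.ext
        rw [toMul_sub, Subgroup.coe_div]
        change (a.toMul : T) * (s (π (a.toMul : T)))⁻¹ / (1 * (s (π 1))⁻¹) = (a.toMul : T)
        rw [hpa, map_one, one_mul, mul_div_cancel_right]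
      · simp [hpa]
    rw [← e3, h1, sub_zero]
  have hC : C.FG := by
    refine Submodule.fg_of_fg_map_of_fg_inf_ker ι ?_ ?_
    · have hle : C.map ι ≤ I := by
        rintro _ ⟨a, ha, rfl⟩
        rw [hθc a ha]
        exact hI _
      have : Module.Finite ℤ I := Module.Finite.iff_fg.2 hIfg
      have hN : IsNoetherian ℤ I := isNoetherian_of_isNoetherianRing_of_finite ℤ I
      exact (isNoetherian_submodule.1 hN) _ hle
    · have hle : C ⊓ LinearMap.ker ι ≤ (LinearMap.ker (d21 E)).map ρ := by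
        rintro a ⟨-, ha⟩
        have h1 : R.mkQ (a, 0) = 0 := ha
        obtain ⟨z, hz⟩ := (Submodule.Quotient.mk_eq_zero _).1 h1
        have h2 := congrArg Prod.fst hz
        have h3 := congrArg Prod.snd hz
        refine ⟨z, ?_, h2⟩
        have h4 : -(d21 E z) = 0 := h3
        exact neg_eq_zero.1 h4
      have : Module.Finite ℤ ((LinearMap.ker (d21 E)).map ρ) := Module.Finite.iff_fg.2 hcyc
      have hN : IsNoetherian ℤ ((LinearMap.ker (d21 E)).map ρ) :=
        isNoetherian_of_isNoetherianRing_of_finite ℤ _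
      exact (isNoetherian_submodule.1 hN) _ hle
  obtain ⟨Y, hY⟩ := hC
  refine ⟨(fun a : Z => (a.toMul : T)) '' (Y : Set Z), (Finset.finite_toSet Y).image _, ?_⟩
  apply le_antisymm
  · rw [Subgroup.closure_le]
    rintro _ ⟨a, ha, rfl⟩
    have : a ∈ C := hY ▸ Submodule.subset_span ha
    exact this
  · intro x hx
    have hx' : (cz ⟨x, hx⟩) ∈ C := hx
    rw [← hY] at hx'
    let K : Subgroup T := Subgroup.closure ((fun a : Z => (a.toMul : T)) '' (Y : Set Z))
    let S : Submodule ℤ Z :=
      { carrier := {a | (a.toMul : T) ∈ K}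
        add_mem' := fun {a b} ha hb => K.mul_mem ha hb
        zero_mem' := K.one_mem
        smul_mem' := fun n a ha => by
          change ((n • a).toMul : T) ∈ K
          rw [toMul_zsmul]
          exact K.zpow_mem ha n }
    have hle : Submodule.span ℤ (Y : Set Z) ≤ S :=
      Submodule.span_le.2 fun a ha => Subgroup.subset_closure ⟨a, ha, rfl⟩
    exact hle hx'

theorem exists_finite_of_H2 {G : Type} [Group G] (hG : Group.FG G) (N : Subgroup G) [N.Normal]
    (hH : Module.Finite ℤ (groupHomology (TZ (G ⧸ N)) 2)) :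
    ∃ X : Set G, X.Finite ∧ X ⊆ N ∧ N ≤ Subgroup.closure X ⊔ ⁅N, (⊤ : Subgroup G)⁆ := by
  let D : Subgroup G := ⁅N, (⊤ : Subgroup G)⁆
  have hDN : D ≤ N := Subgroup.commutator_le_left N ⊤
  let π : G ⧸ D →* G ⧸ N := QuotientGroup.map D N (MonoidHom.id G) hDN
  have hπm : ∀ g : G, π (g : G ⧸ D) = (g : G ⧸ N) := fun g => rfl
  have hπ : Function.Surjective π := by
    intro x
    obtain ⟨g, rfl⟩ := QuotientGroup.mk_surjective x
    exact ⟨(g : G ⧸ D), rfl⟩
  have hker : ∀ g : G, (g : G ⧸ D) ∈ π.ker ↔ g ∈ N := by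
    intro g
    rw [MonoidHom.mem_ker, hπm, QuotientGroup.eq_one_iff]
  have hc : π.ker ≤ Subgroup.center (G ⧸ D) := by
    intro x hx
    obtain ⟨g, rfl⟩ := QuotientGroup.mk_surjective x
    rw [hker] at hx
    rw [Subgroup.mem_center_iff]
    intro y
    obtain ⟨h, rfl⟩ := QuotientGroup.mk_surjective y
    have h1 : ⁅g, h⁆ ∈ D := Subgroup.commutator_mem_commutator hx (Subgroup.mem_top h)
    have h2 : ((⁅g, h⁆ : G) : G ⧸ D) = 1 := (QuotientGroup.eq_one_iff _).2 h1
    rw [commutatorElement_def] at h2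
    change ((h * g : G) : G ⧸ D) = ((g * h : G) : G ⧸ D)
    have h3 : ((g * h : G) : G ⧸ D) = (((g * h * g⁻¹ * h⁻¹) * (h * g) : G) : G ⧸ D) := by
      congr 1; group
    rw [h3]
    change _ = ((g * h * g⁻¹ * h⁻¹ : G) : G ⧸ D) * ((h * g : G) : G ⧸ D)
    rw [h2, one_mul]
  have hT : Group.FG (G ⧸ D) := QuotientGroup.fg D
  obtain ⟨X, hX, hcl⟩ := ker_fg_of_H2 π hπ hc hT hH
  choose lift hlift using fun x : G ⧸ D => QuotientGroup.mk_surjective x
  refine ⟨lift '' X, hX.image _, ?_, ?_⟩
  · rintro _ ⟨x, hx, rfl⟩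
    have : x ∈ π.ker := hcl ▸ Subgroup.subset_closure hx
    rw [← hlift x] at this
    exact (hker _).1 this
  · intro g hg
    have h1 : (g : G ⧸ D) ∈ Subgroup.closure X := by
      rw [hcl]; exact (hker g).2 hg
    have h2 : Subgroup.closure X ≤ (Subgroup.closure (lift '' X)).map (QuotientGroup.mk' D) := by
      rw [Subgroup.closure_le]
      intro x hx
      exact ⟨lift x, Subgroup.subset_closure ⟨x, hx, rfl⟩, hlift x⟩
    obtain ⟨y, hy, hyg⟩ := h2 h1
    have h3 : y⁻¹ * g ∈ D := QuotientGroup.eq.1 hyg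
    have : g = y * (y⁻¹ * g) := by group
    rw [this]
    exact Subgroup.mul_mem _ (Subgroup.mem_sup_left hy) (Subgroup.mem_sup_right h3)

end Pool.H22.BH
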