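import Mathlib

/-! An ideal of `ℤ[X]` which is closed under `X ↦ X^k` and is not contained in any `p ℤ[X]`
contains a monic polynomial. -/

namespace Pool.H22.BH

open Polynomial Matrix

theorem step1 (J : Ideal ℤ[X]) (hk : ∀ g ∈ J, ∀ k : ℕ, g.comp (X ^ k) ∈ J) (g : ℤ[X])
    (hg : g ∈ J) (i : ℕ) : ∃ Ω : ℤ[X], Ω.Monic ∧ Ω * C (g.coeff i) ∈ J := by
  classical
  rcases lt_or_ge g.natDegree i with hi | hi
  · exact ⟨1, monic_one, by rw [coeff_eq_zero_of_natDegree_lt hi, map_zero, mul_zero]; exact J.zero_mem⟩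
  let D := g.natDegree + 1
  let v : Fin D → ℤ[X] := fun i => X ^ (i : ℕ)
  let V : Matrix (Fin D) (Fin D) ℤ[X] := vandermonde v
  let γ : Fin D → ℤ[X] := fun i => C (g.coeff i)
  have h1 : ∀ k, (γ ᵥ* V) k ∈ J := by
    intro k
    have h2 : (γ ᵥ* V) k = g.comp (X ^ (k : ℕ)) := by
      rw [Polynomial.comp, eval₂_eq_sum_range]
      change ∑ i, γ i * V i k = _
      rw [← Fin.sum_univ_eq_sum_range (fun i => C (g.coeff i) * (X ^ (k : ℕ)) ^ i) D]
      refine Finset.sum_congr rfl fun j _ => ?_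
      simp only [γ, V, v, vandermonde_apply, ← pow_mul, mul_comm (j : ℕ)]
    rw [h2]
    exact hk g hg k
  have h3 : (γ ᵥ* V) ᵥ* V.adjugate = V.det • γ := by
    rw [vecMul_vecMul, mul_adjugate, vecMul_smul, vecMul_one]
  have h4 : V.det * C (g.coeff i) ∈ J := by
    have h5 := congrFun h3 ⟨i, Nat.lt_succ_of_le hi⟩
    have h6 : V.det * C (g.coeff i) = (V.det • γ) ⟨i, Nat.lt_succ_of_le hi⟩ := rfl
    rw [h6, ← h5]
    change ∑ k, (γ ᵥ* V) k * V.adjugate k _ ∈ J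
    exact J.sum_mem fun k _ => J.mul_mem_right _ (h1 k)
  refine ⟨V.det, ?_, h4⟩
  rw [det_vandermonde]
  refine monic_prod_of_monic _ _ fun a _ => monic_prod_of_monic _ _ fun b hb => ?_
  have hab : (a : ℕ) < (b : ℕ) := Fin.lt_def.1 (Finset.mem_Ioi.1 hb)
  refine (monic_X_pow (R := ℤ) (b : ℕ)).sub_of_left ?_
  simp only [v]
  rw [degree_X_pow, degree_X_pow]
  exact_mod_cast hab

theorem exists_monic (J : Ideal ℤ[X]) (hk : ∀ g ∈ J, ∀ k : ℕ, g.comp (X ^ k) ∈ J)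
    (hp : ∀ p : ℕ, p.Prime → ∃ g ∈ J, ∃ i, ¬ (p : ℤ) ∣ g.coeff i) :
    ∃ Ω ∈ J, Ω.Monic := by
  let J0 : Ideal ℤ :=
    { carrier := {c | ∃ Ω : ℤ[X], Ω.Monic ∧ Ω * C c ∈ J}
      add_mem' := by
        rintro a b ⟨P, hP, hPa⟩ ⟨Q, hQ, hQb⟩
        refine ⟨P * Q, hP.mul hQ, ?_⟩
        have : P * Q * C (a + b) = Q * (P * C a) + P * (Q * C b) := by rw [map_add]; ring
        rw [this]
        exact J.add_mem (J.mul_mem_left _ hPa) (J.mul_mem_left _ hQb)
      zero_mem' := ⟨1, monic_one, by rw [map_zero, mul_zero]; exact J.zero_mem⟩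
      smul_mem' := by
        rintro c a ⟨P, hP, hPa⟩
        refine ⟨P, hP, ?_⟩
        have : P * C (c • a) = C c * (P * C a) := by rw [smul_eq_mul, map_mul]; ring
        rw [this]
        exact J.mul_mem_left _ hPa }
  obtain ⟨n, hn⟩ := (IsPrincipalIdealRing.principal J0).principal
  have hn1 : n.natAbs = 1 := by
    by_contra hne
    obtain ⟨p, hpp, hpn⟩ := Nat.exists_prime_and_dvd hne
    obtain ⟨g, hg, i, hi⟩ := hp p hpp
    have h1 : g.coeff i ∈ J0 := step1 J hk g hg i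
    rw [hn, Ideal.submodule_span_eq, Ideal.mem_span_singleton] at h1
    exact hi ((Int.natCast_dvd.2 hpn).trans h1)
  have h1 : (1 : ℤ) ∈ J0 := by
    rw [hn, Ideal.submodule_span_eq, Ideal.mem_span_singleton]
    exact Int.natAbs_dvd_natAbs.1 (by rw [hn1]; exact one_dvd _)
  obtain ⟨Ω, h2, h3⟩ := h1
  rw [map_one, mul_one] at h3
  exact ⟨Ω, h3, h2⟩

end Pool.H22.BH
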