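import Pool.Agent.H22.BH.Sol
import Pool.Agent.H22.BH.Poly

/-! Varieties that do not contain all (elementary abelian p)-by-cyclic groups: the orbit
property. -/

namespace Pool.H22.BH

open Polynomial
open scoped IsMulCommutative commutatorElement LaurentPolynomial

/-- the group satisfies all laws in `W` -/
def Law (W : Set (FreeGroup ℕ)) (E : Type) [Group E] : Prop :=
  ∀ w ∈ W, ∀ f : ℕ → E, FreeGroup.lift f w = 1

theorem Law.sub {W : Set (FreeGroup ℕ)} {E : Type} [Group E] (h : Law W E) (S : Subgroup E) :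
    Law W S := by
  intro w hw f
  apply Subtype.ext
  have h1 : S.subtype.comp (FreeGroup.lift f) = FreeGroup.lift (fun i => (f i : E)) := by
    ext i; simp
  have h2 := DFunLike.congr_fun h1 w
  rw [h w hw] at h2
  exact h2

theorem Law.quo {W : Set (FreeGroup ℕ)} {E Q : Type} [Group E] [Group Q] (φ : E →* Q)
    (hφ : Function.Surjective φ) (h : Law W E) : Law W Q := by
  intro w hw f
  choose s hs using hφ
  have h1 : φ.comp (FreeGroup.lift (fun i => s (f i))) = FreeGroup.lift f := by
    ext i; simp [hs]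
  rw [← h1, MonoidHom.comp_apply, h w hw, map_one]

section
variable {E : Type} [Group E] (A : Subgroup E) [A.Normal] [IsMulCommutative A]

/-- conjugation on an abelian normal subgroup -/
noncomputable def cj : E →* AddMonoid.End (Additive A) where
  toFun t :=
    { toFun := fun a => Additive.ofMul (MulAut.conjNormal t a.toMul)
      map_zero' := by
        change Additive.ofMul (MulAut.conjNormal t (1 : A)) = Additive.ofMul (1 : A)
        rw [map_one]
      map_add' := fun a b => by
        change Additive.ofMul (MulAut.conjNormal t (a.toMul * b.toMul)) = _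
        rw [map_mul]; rfl }
  map_one' := by
    ext a
    change (MulAut.conjNormal (1 : E) a.toMul : E) = a.toMul
    simp
  map_mul' s t := by
    ext a
    change (MulAut.conjNormal (s * t) a.toMul : E) =
      (MulAut.conjNormal s (MulAut.conjNormal t a.toMul) : E)
    simp

theorem cj_apply (t : E) (a : Additive A) :
    (((cj A t a).toMul : A) : E) = t * (a.toMul : A) * t⁻¹ := by
  change (MulAut.conjNormal t a.toMul : E) = _
  simp

theorem cj_pow (t : E) (n : ℕ) : cj A t ^ n = cj A (t ^ n) := (map_pow _ _ _).symm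

end

/-- the polynomials that annihilate all abelian normal subgroups of all groups in the variety -/
noncomputable def JW (W : Set (FreeGroup ℕ)) : Ideal ℤ[X] where
  carrier := {g | ∀ (E : Type) [Group E] (A : Subgroup E) [A.Normal] [IsMulCommutative A],
    Law W E → ∀ t : E, aeval (cj A t) g = 0}
  add_mem' := by
    intro a b ha hb E _ A _ _ hE t
    rw [map_add, ha E A hE t, hb E A hE t, add_zero]
  zero_mem' := by
    intro E _ A _ _ hE t
    rw [map_zero]
  smul_mem' := by
    intro c a ha E _ A _ _ hE t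
    rw [smul_eq_mul, map_mul, ha E A hE t, mul_zero]

theorem mem_JW {W : Set (FreeGroup ℕ)} {g : ℤ[X]} : g ∈ JW W ↔
    ∀ (E : Type) [Group E] (A : Subgroup E) [A.Normal] [IsMulCommutative A],
    Law W E → ∀ t : E, aeval (cj A t) g = 0 := Iff.rfl

theorem JW_comp {W : Set (FreeGroup ℕ)} (g : ℤ[X]) (hg : g ∈ JW W) (k : ℕ) :
    g.comp (X ^ k) ∈ JW W := by
  intro E _ A _ _ hE t
  rw [aeval_comp, map_pow, aeval_X, cj_pow]
  exact hg E A hE (t ^ k)

theorem orb_of_monic {W : Set (FreeGroup ℕ)} {Ω : ℤ[X]} (hΩ : Ω ∈ JW W) (hm : Ω.Monic)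
    (E : Type) [Group E] (hE : Law W E) : Orb E := by
  intro A hA hc t a ha
  have hcomm : IsMulCommutative A := ⟨⟨fun x y => Subtype.ext (hc _ x.2 _ y.2)⟩⟩
  have hint : ∀ s : E, IsIntegral ℤ (cj A s) := fun s => ⟨Ω, hm, hΩ E A hE s⟩
  let ev : AddMonoid.End (Additive A) →ₗ[ℤ] Additive A :=
    { toFun := fun φ => φ (Additive.ofMul ⟨a, ha⟩)
      map_add' := fun φ ψ => rfl
      map_smul' := fun n φ => rfl }
  let P : E → Submodule ℤ (Additive A) := fun s =>
    (Subalgebra.toSubmodule (Algebra.adjoin ℤ {cj A s})).map ev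
  have hP : ∀ s, (P s).FG := fun s => (hint s).fg_adjoin_singleton.map ev
  let N : Submodule ℤ (Additive A) := P t ⊔ P t⁻¹
  have hN : N.FG := (hP t).sup (hP t⁻¹)
  have hmem : ∀ (s : E) (n : ℕ), ev (cj A (s ^ n)) ∈ P s := by
    intro s n
    refine ⟨cj A (s ^ n), ?_, rfl⟩
    rw [map_pow]
    exact Subalgebra.pow_mem _ (Algebra.self_mem_adjoin_singleton ℤ _) n
  let S0 : Subgroup A := AddSubgroup.toSubgroup' N.toAddSubgroup
  refine ⟨S0.map A.subtype, ?_, ?_, ?_⟩
  · rintro _ ⟨x, -, rfl⟩
    exact x.2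
  · have h1 : S0.FG := by
      rw [Subgroup.fg_iff_add_fg]
      exact (Submodule.fg_iff_addSubgroup_fg N).1 hN
    obtain ⟨Y, hY⟩ := h1
    exact (Subgroup.fg_iff _).2 ⟨A.subtype '' (Y : Set A), by rw [← MonoidHom.map_closure, hY],
      Y.finite_toSet.image _⟩
  · intro k
    have key : ∀ s : E, ev (cj A s) ∈ N → s * a * s⁻¹ ∈ S0.map A.subtype := by
      intro s hs
      refine ⟨(ev (cj A s)).toMul, hs, ?_⟩
      exact cj_apply A s _
    apply key
    obtain ⟨n, rfl | rfl⟩ := k.eq_nat_or_neg
    · rw [zpow_natCast]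
      exact Submodule.mem_sup_left (hmem t n)
    · rw [zpow_neg, zpow_natCast, ← inv_pow]
      exact Submodule.mem_sup_right (hmem t⁻¹ n)

end Pool.H22.BH
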