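import Pool.Agent.H22.Rad.Wr

/-! A nontrivial word fails in a finite p-group, on arguments in the subgroup generated by the
elements of order dividing `p`. -/

namespace Pool.H22.BH

open Pool.H22.Rad FreeGroup

theorem wr_pgroup {p : ℕ} [Fact p.Prime] {D Q : Type} [Group D] [Group Q] [Finite D] [Finite Q]
    (hD : IsPGroup p D) (hQ : IsPGroup p Q) : IsPGroup p (Wr D Q) := by
  obtain ⟨a, ha⟩ := (IsPGroup.iff_card (p := p)).1 hD
  obtain ⟨b, hb⟩ := (IsPGroup.iff_card (p := p)).1 hQ
  refine (IsPGroup.iff_card (p := p)).2 ⟨a * Nat.card Q + b, ?_⟩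
  rw [Nat.card_congr (Wr.equiv D Q), Nat.card_prod, Nat.card_fun, ha, pow_add, pow_mul]
  exact congrArg _ hb

theorem zmod_pgroup {p : ℕ} [Fact p.Prime] (k : ℕ) : IsPGroup p (Multiplicative (ZMod (p ^ k))) := by
  have : NeZero (p ^ k) := ⟨pow_ne_zero _ (Fact.out : p.Prime).ne_zero⟩
  refine (IsPGroup.iff_card (p := p)).2 ⟨k, ?_⟩
  rw [Nat.card_congr Multiplicative.toAdd, Nat.card_zmod]

/-- the value of a word -/
def evw {Q : Type} [Group Q] (f : ℕ → Q) (L : List (ℕ × Bool)) : Q :=
  (L.map fun x => cond x.2 (f x.1) (f x.1)⁻¹).prod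

theorem evw_cons {Q : Type} [Group Q] (f : ℕ → Q) (x : ℕ × Bool) (L : List (ℕ × Bool)) :
    evw f (x :: L) = cond x.2 (f x.1) (f x.1)⁻¹ * evw f L := by
  simp [evw]

theorem evw_nil {Q : Type} [Group Q] (f : ℕ → Q) : evw f [] = 1 := rfl

theorem walk (p : ℕ) [hp : Fact p.Prime] (L : List (ℕ × Bool)) : IsReduced L →
    ∃ (Q : Type) (_ : Group Q) (_ : Finite Q) (f : ℕ → Q), IsPGroup p Q ∧
      ∀ M N, M <:+ L → N <:+ L → evw f M = evw f N → M = N := by
  classical
  induction L with
  | nil =>
    intro _
    refine ⟨PUnit, inferInstance, inferInstance, fun _ => 1, fun g => ⟨0, rfl⟩, ?_⟩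
    intro M N hM hN _
    rw [List.suffix_nil.1 hM, List.suffix_nil.1 hN]
  | cons l L ih =>
    intro hred
    obtain ⟨Q, _, _, f, hQ, hf⟩ := ih (List.IsChain.tail hred)
    let x0 : Q := cond l.2 (evw f (l :: L))⁻¹ (evw f L)⁻¹
    let g : ℕ → Wr (Multiplicative (ZMod p)) Q := fun j =>
      ⟨fun x => if j = l.1 ∧ x = x0 then Multiplicative.ofAdd 1 else 1, f j⟩
    have hgq : ∀ M, (evw g M).q = evw f M := by
      intro M
      induction M with
      | nil => rfl
      | cons a M ih2 =>
        rw [evw_cons, evw_cons, Wr.mul_q, ih2]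
        rcases a with ⟨j, _ | _⟩ <;> rfl
    -- the collected label
    let h : List (ℕ × Bool) → Multiplicative (ZMod p) := fun M => (evw g M).f (evw f M)⁻¹
    have hcons : ∀ (a : ℕ × Bool) M, h (a :: M) =
        cond a.2 ((g a.1).f (evw f (a :: M))⁻¹) ((g a.1).f (evw f M)⁻¹)⁻¹ * h M := by
      intro a M
      rcases a with ⟨j, _ | _⟩
      · simp only [h, evw_cons, cond_false, Wr.mul_f, Wr.inv_f, Wr.inv_q]
        have : (g j).q = f j := rfl
        rw [this]
        congr 2
        · group
        · group
      · simp only [h, evw_cons, cond_true, Wr.mul_f]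
        have : (g j).q = f j := rfl
        rw [this]
        congr 2
        group
    have hzero : ∀ M, M <:+ L → h M = 1 := by
      intro M
      induction M with
      | nil => intro _; rfl
      | cons a M ih2 =>
        intro hM
        have hM' : M <:+ L := (List.suffix_cons a M).trans hM
        have hMne : M ≠ L := by
          intro h1
          have := hM.length_le
          rw [← h1] at this
          simp at this
        rw [hcons, ih2 hM', mul_one]
        rcases a with ⟨j, _ | _⟩
        · simp only [cond_false, inv_eq_one]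
          change (if j = l.1 ∧ (evw f M)⁻¹ = x0 then Multiplicative.ofAdd (1 : ZMod p) else 1) = 1
          rw [if_neg]
          rintro ⟨rfl, h2⟩
          rcases l with ⟨i, _ | _⟩
          · -- l negative
            simp only [x0, cond_false, inv_inj] at h2
            exact hMne (hf _ _ hM' List.suffix_rfl h2)
          · simp only [x0, cond_true, inv_inj] at h2
            rw [evw_cons, cond_true] at h2
            have h3 : evw f ((i, false) :: M) = evw f L := by
              rw [evw_cons, cond_false, h2]; group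
            have h4 := hf _ _ hM List.suffix_rfl h3
            rw [← h4] at hred
            have h5 := (List.isChain_cons_cons.1 hred).1 rfl
            simp at h5
        · simp only [cond_true]
          change (if j = l.1 ∧ (evw f ((j, true) :: M))⁻¹ = x0 then
            Multiplicative.ofAdd (1 : ZMod p) else 1) = 1
          rw [if_neg]
          rintro ⟨rfl, h2⟩
          rcases l with ⟨i, _ | _⟩
          · simp only [x0, cond_false, inv_inj] at h2
            have h4 := hf _ _ hM List.suffix_rfl h2
            rw [← h4] at hred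
            have h5 := (List.isChain_cons_cons.1 hred).1 rfl
            simp at h5
          · simp only [x0, cond_true, inv_inj] at h2
            rw [evw_cons, evw_cons] at h2
            have h3 := mul_left_cancel h2
            exact hMne (hf _ _ hM' List.suffix_rfl h3)
    have hone : h (l :: L) ≠ 1 := by
      rw [hcons, hzero L List.suffix_rfl, mul_one]
      have hne : (Multiplicative.ofAdd (1 : ZMod p)) ≠ 1 := by
        intro h1
        exact one_ne_zero (α := ZMod p) h1
      rcases l with ⟨i, _ | _⟩
      · simp only [cond_false, ne_eq, inv_eq_one]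
        change ¬ (if i = i ∧ (evw f L)⁻¹ = x0 then Multiplicative.ofAdd (1 : ZMod p) else 1) = 1
        rw [if_pos ⟨rfl, rfl⟩]; exact hne
      · simp only [cond_true, ne_eq]
        change ¬ (if i = i ∧ (evw f ((i, true) :: L))⁻¹ = x0 then
          Multiplicative.ofAdd (1 : ZMod p) else 1) = 1
        rw [if_pos ⟨rfl, rfl⟩]; exact hne
    have hkey : ∀ M, M <:+ L → evw g (l :: L) ≠ evw g M := by
      intro M hM h1
      have h2 : evw f (l :: L) = evw f M := by rw [← hgq, ← hgq, h1]
      have h3 : h (l :: L) = h M := by simp only [h, h1, h2]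
      rw [hzero M hM] at h3
      exact hone h3
    have hp1 : IsPGroup p (Multiplicative (ZMod p)) := by
      have := zmod_pgroup (p := p) 1
      rwa [pow_one] at this
    refine ⟨Wr (Multiplicative (ZMod p)) Q, inferInstance, inferInstance, g, wr_pgroup hp1 hQ, ?_⟩
    intro M N hM hN hMN
    rcases List.suffix_cons_iff.1 hM with rfl | hM
    · rcases List.suffix_cons_iff.1 hN with rfl | hN
      · rfl
      · exact absurd hMN (hkey N hN)
    · rcases List.suffix_cons_iff.1 hN with rfl | hN
      · exact absurd hMN.symm (hkey M hM)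
      · exact hf M N hM hN (by rw [← hgq, ← hgq, hMN])

theorem res_p (p : ℕ) [Fact p.Prime] (w : FreeGroup ℕ) (hw : w ≠ 1) :
    ∃ (Q : Type) (_ : Group Q) (_ : Finite Q) (f : ℕ → Q), IsPGroup p Q ∧
      FreeGroup.lift f w ≠ 1 := by
  obtain ⟨Q, _, _, f, hQ, hf⟩ := walk p w.toWord isReduced_toWord
  refine ⟨Q, inferInstance, inferInstance, f, hQ, ?_⟩
  intro h
  apply hw
  have h1 : evw f w.toWord = evw f [] := by
    rw [evw_nil, evw, ← FreeGroup.lift_mk, FreeGroup.mk_toWord, h]
  have h2 := hf _ _ List.suffix_rfl (List.nil_suffix) h1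
  rwa [FreeGroup.toWord_eq_nil_iff] at h2

/-- with arguments in the subgroup generated by the elements of order dividing `p` -/
theorem res_p' (p : ℕ) [hp : Fact p.Prime] (w : FreeGroup ℕ) (hw : w ≠ 1) :
    ∃ (Q : Type) (_ : Group Q) (_ : Finite Q) (f : ℕ → Q), IsPGroup p Q ∧
      (∀ i, f i ∈ Subgroup.closure {x : Q | x ^ p = 1}) ∧ FreeGroup.lift f w ≠ 1 := by
  classical
  obtain ⟨Q, _, _, f, hQ, hf⟩ := res_p p w hw
  let P := Multiplicative (ZMod p)
  let σ : Wr Q P := ⟨fun _ => 1, Multiplicative.ofAdd 1⟩
  let b : ℕ → Wr Q P := fun i => ⟨fun x => if x = 1 then f i else 1, 1⟩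
  have hσ : σ ^ p = 1 := by
    have h1 : ∀ n : ℕ, σ ^ n = ⟨fun _ => 1, Multiplicative.ofAdd (1 : ZMod p) ^ n⟩ := by
      intro n
      induction n with
      | zero => rw [pow_zero, pow_zero]; rfl
      | succ n ih =>
        rw [pow_succ, ih, pow_succ]
        ext x
        · simp [σ]
        · rfl
    rw [h1]
    ext x
    · rfl
    · change Multiplicative.ofAdd (1 : ZMod p) ^ p = 1
      rw [← ofAdd_nsmul]
      simp
  have hne : (Multiplicative.ofAdd (1 : ZMod p)) ≠ 1 := by
    intro h1
    exact one_ne_zero (α := ZMod p) h1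
  let g : ℕ → Wr Q P := fun i => b i * σ * (b i)⁻¹ * σ⁻¹
  have hgq : ∀ i, (g i).q = 1 := by
    intro i
    simp [g, b]
  have hgf : ∀ i, (g i).f 1 = f i := by
    intro i
    simp [g, b, σ, hne]
  have hp1 : IsPGroup p (Multiplicative (ZMod p)) := by
    have := zmod_pgroup (p := p) 1
    rwa [pow_one] at this
  refine ⟨Wr Q P, inferInstance, inferInstance, g, wr_pgroup hQ hp1, ?_, ?_⟩
  · intro i
    refine Subgroup.mul_mem _ (Subgroup.subset_closure ?_)
      (Subgroup.inv_mem _ (Subgroup.subset_closure hσ))
    change (b i * σ * (b i)⁻¹) ^ p = 1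
    rw [conj_pow, hσ, mul_one, mul_inv_cancel]
  · intro h1
    apply hf
    -- evaluation at `1` on the base
    have h2 : ∀ v : FreeGroup ℕ, (FreeGroup.lift g v).q = 1 ∧
        (FreeGroup.lift g v).f 1 = FreeGroup.lift f v := by
      intro v
      induction v using FreeGroup.induction_on with
      | C1 => simp
      | of i => simp [hgq, hgf]
      | inv_of i ih => simp [hgq, hgf]
      | mul x y hx hy =>
        rw [_root_.map_mul, _root_.map_mul, Wr.mul_q, Wr.mul_f, hx.1, hy.1, hx.2, mul_one, hy.2]
        exact ⟨rfl, rfl⟩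
    rw [← (h2 w).2, h1]
    rfl

end Pool.H22.BH
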