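import Pool.Agent.H22.BH.Laws

/-! The law that fails in an (elementary abelian p)-by-cyclic group gives a polynomial. -/

namespace Pool.H22.BH

open Polynomial
open scoped IsMulCommutative commutatorElement LaurentPolynomial

/-- the free (ℤ[T;T⁻¹]-module)-by-cyclic group -/
@[ext] structure SD where
  /-- module part -/
  m : ℕ →₀ ℤ[T;T⁻¹]
  /-- exponent -/
  n : ℤ

namespace SD

noncomputable instance : Mul SD := ⟨fun a b => ⟨a.m + (LaurentPolynomial.T a.n : ℤ[T;T⁻¹]) • b.m, a.n + b.n⟩⟩
noncomputable instance : One SD := ⟨⟨0, 0⟩⟩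
noncomputable instance : Inv SD := ⟨fun a => ⟨-((LaurentPolynomial.T (-a.n) : ℤ[T;T⁻¹]) • a.m), -a.n⟩⟩

theorem mul_m (a b : SD) : (a * b).m = a.m + (LaurentPolynomial.T a.n : ℤ[T;T⁻¹]) • b.m := rfl
theorem mul_n (a b : SD) : (a * b).n = a.n + b.n := rfl
theorem one_m : (1 : SD).m = 0 := rfl
theorem one_n : (1 : SD).n = 0 := rfl
theorem inv_m (a : SD) : (a⁻¹).m = -((LaurentPolynomial.T (-a.n) : ℤ[T;T⁻¹]) • a.m) := rfl
theorem inv_n (a : SD) : (a⁻¹).n = -a.n := rfl

noncomputable instance : Group SD :=
  Group.ofLeftAxioms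
    (by
      intro a b c
      ext1
      · rw [mul_m, mul_m, mul_m, mul_m, mul_n, smul_add, smul_smul, ← LaurentPolynomial.T_add,
          add_assoc]
      · simp only [mul_n]; ring)
    (by
      intro a
      ext1
      · rw [mul_m, one_m, one_n, LaurentPolynomial.T_zero, one_smul, zero_add]
      · simp only [mul_n, one_n, zero_add])
    (by
      intro a
      ext1
      · rw [mul_m, inv_m, inv_n, one_m, neg_add_cancel]
      · simp only [mul_n, inv_n, one_n, neg_add_cancel])

end SD

section
variable {E : Type} [Group E] (A : Subgroup E) [A.Normal] [IsMulCommutative A]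

/-- evaluation of Laurent polynomials at an element acting on `A` -/
noncomputable def evL (t : E) : ℤ[T;T⁻¹] →ₐ[ℤ] AddMonoid.End (Additive A) :=
  AddMonoidAlgebra.lift ℤ _ _ ((cj A).comp (zpowersHom E t))

theorem evL_T (t : E) (n : ℤ) : evL A t (LaurentPolynomial.T n) = cj A (t ^ n) := by
  rw [evL, LaurentPolynomial.T, AddMonoidAlgebra.lift_single]
  simp

theorem evL_poly (t : E) (g : ℤ[X]) : evL A t (toLaurent g) = aeval (cj A t) g := by
  have h : ((evL A t).comp toLaurentAlg) = aeval (cj A t) := by
    ext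
    simp [evL_T]
  exact DFunLike.congr_fun h g

/-- the additive map attached to a family of elements of `A` -/
noncomputable def phiL (t : E) (b : ℕ → A) : (ℕ →₀ ℤ[T;T⁻¹]) →+ Additive A :=
  Finsupp.liftAddHom fun i =>
    (AddMonoidHom.eval (Additive.ofMul (b i))).comp (evL A t).toRingHom.toAddMonoidHom

theorem phiL_single (t : E) (b : ℕ → A) (i : ℕ) (f : ℤ[T;T⁻¹]) :
    phiL A t b (Finsupp.single i f) = evL A t f (Additive.ofMul (b i)) := by
  rw [phiL, Finsupp.liftAddHom_apply_single]
  rfl

theorem phiL_smul (t : E) (b : ℕ → A) (n : ℤ) (m : ℕ →₀ ℤ[T;T⁻¹]) :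
    phiL A t b ((LaurentPolynomial.T n : ℤ[T;T⁻¹]) • m) = cj A (t ^ n) (phiL A t b m) := by
  induction m using Finsupp.induction_linear with
  | zero => simp
  | add f g hf hg => rw [smul_add, map_add, map_add, map_add, hf, hg]
  | single i f =>
    rw [Finsupp.smul_single, smul_eq_mul, phiL_single, phiL_single, map_mul, evL_T]
    rfl

/-- the homomorphism from the free object -/
noncomputable def psi (t : E) (b : ℕ → A) : SD →* E where
  toFun x := ((phiL A t b x.m).toMul : A) * t ^ x.n
  map_one' := by
    rw [SD.one_m, SD.one_n, map_zero]; simp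
  map_mul' x y := by
    rw [SD.mul_m, SD.mul_n, map_add, phiL_smul, toMul_add, Subgroup.coe_mul, cj_apply, zpow_add]
    group

theorem psi_apply (t : E) (b : ℕ → A) (x : SD) :
    psi A t b x = ((phiL A t b x.m).toMul : A) * t ^ x.n := rfl

end

/-- the generic substitution with prescribed exponents -/
noncomputable def gen (n : ℕ → ℤ) : FreeGroup ℕ →* SD :=
  FreeGroup.lift fun i => ⟨Finsupp.single i 1, n i⟩

theorem psi_gen {E : Type} [Group E] (A : Subgroup E) [A.Normal] [IsMulCommutative A] (t : E)
    (b : ℕ → A) (n : ℕ → ℤ) (w : FreeGroup ℕ) :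
    psi A t b (gen n w) = FreeGroup.lift (fun i => ((b i : E) * t ^ n i)) w := by
  have h : (psi A t b).comp (gen n) = FreeGroup.lift (fun i => ((b i : E) * t ^ n i)) := by
    ext i
    simp [gen, psi_apply, phiL_single]
  exact DFunLike.congr_fun h w

/-- `V` contains all (elementary abelian p)-by-cyclic groups -/
def AbCyc (p : ℕ) (W : Set (FreeGroup ℕ)) : Prop :=
  ∀ (E : Type) [Group E] (A : Subgroup E), A.Normal → (∀ a ∈ A, ∀ b ∈ A, a * b = b * a) →
    (∀ a ∈ A, a ^ p = 1) → (∃ t : E, ∀ x : E, ∃ n : ℤ, x * t ^ n ∈ A) → Law W E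

theorem exists_poly {p : ℕ} (hp : p.Prime) {W : Set (FreeGroup ℕ)} (h : ¬ AbCyc p W) :
    ∃ g ∈ JW W, ∃ i, ¬ (p : ℤ) ∣ g.coeff i := by
  simp only [AbCyc, Law, not_forall] at h
  obtain ⟨E, _, A, hA, hc, hAp, ⟨t, ht⟩, w, hw, f, hne⟩ := h
  have hcomm : IsMulCommutative A := ⟨⟨fun x y => Subtype.ext (hc _ x.2 _ y.2)⟩⟩
  choose n0 hn0 using ht
  let n : ℕ → ℤ := fun i => -n0 (f i)
  let b : ℕ → A := fun i => ⟨f i * t ^ n0 (f i), hn0 (f i)⟩
  have hf : (fun i => ((b i : E) * t ^ n i)) = f := by
    funext i
    simp [b, n]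
  rw [← hf, ← psi_gen A t b n w, psi_apply] at hne
  -- consequences of the law in the groups of the variety
  have hlaw : ∀ (E' : Type) [Group E'] (A' : Subgroup E') [A'.Normal] [IsMulCommutative A'],
      Law W E' → ∀ (s : E') (b' : ℕ → A'),
        s ^ (gen n w).n = 1 ∧ phiL A' s b' (gen n w).m = 0 := by
    intro E' _ A' _ _ hE' s b'
    have h1 : ∀ b'' : ℕ → A', ((phiL A' s b'' (gen n w).m).toMul : A') * s ^ (gen n w).n = 1 := by
      intro b''
      rw [← psi_apply, psi_gen]
      exact hE' w hw _
    have h0 : phiL A' s (fun _ => 1) (gen n w).m = 0 := by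
      have : ∀ m, phiL A' s (fun _ => 1) m = 0 := by
        intro m
        induction m using Finsupp.induction_linear with
        | zero => exact map_zero _
        | add f g hf hg => rw [map_add, hf, hg, add_zero]
        | single i f => rw [phiL_single]; exact map_zero _
      exact this _
    have h2 : s ^ (gen n w).n = 1 := by
      have h3 := h1 fun _ => 1
      rw [h0] at h3
      simpa using h3
    refine ⟨h2, ?_⟩
    have h4 := h1 b'
    rw [h2, mul_one] at h4
    exact Subtype.ext h4
  by_cases hdiv : ∀ i, (p : ℤ[T;T⁻¹]) ∣ (gen n w).m i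
  · -- the module part vanishes; an exponent law
    have h0 : phiL A t b (gen n w).m = 0 := by
      have hz : ∀ i f, (p : ℤ[T;T⁻¹]) ∣ f → phiL A t b (Finsupp.single i f) = 0 := by
        rintro i _ ⟨f, rfl⟩
        rw [phiL_single, map_mul, map_natCast]
        have h1 : ∀ a : Additive A, (p : AddMonoid.End (Additive A)) a = 0 := by
          intro a
          have h2 : (p : AddMonoid.End (Additive A)) a = p • a := by
            exact AddMonoid.End.natCast_apply p a
          rw [h2]
          apply Subtype.ext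
          change ((a.toMul ^ p : A) : E) = 1
          rw [Subgroup.coe_pow]
          exact hAp _ a.toMul.2
        exact h1 _
      rw [← Finsupp.sum_single (gen n w).m, Finsupp.sum, map_sum]
      exact Finset.sum_eq_zero fun i _ => hz i _ (hdiv i)
    have hne2 : t ^ (gen n w).n ≠ 1 := by
      rw [h0] at hne
      simpa using hne
    have hN0 : (gen n w).n ≠ 0 := by
      intro h1; rw [h1, zpow_zero] at hne2; exact hne2 rfl
    let N := (gen n w).n.natAbs
    have hN : N ≠ 0 := Int.natAbs_ne_zero.2 hN0
    refine ⟨∑ k ∈ Finset.range N, X ^ k, ?_, 0, ?_⟩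
    · intro E' _ A' _ _ hE' s
      rw [map_sum]
      ext a
      have hexp : ∀ x : E', x ^ N = 1 := by
        intro x
        have h1 := (hlaw E' A' hE' x fun _ => 1).1
        obtain h2 | h2 := Int.natAbs_eq (gen n w).n
        · rw [h2, zpow_natCast] at h1; exact h1
        · rw [h2, zpow_neg, zpow_natCast, inv_eq_one] at h1; exact h1
      have hform : ∀ M : ℕ, ((a.toMul : A') * s : E') ^ M =
          (((∑ k ∈ Finset.range M, cj A' s ^ k : AddMonoid.End (Additive A')) a).toMul : A')
            * s ^ M := by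
        intro M
        induction M with
        | zero => simp
        | succ M ih =>
          have h4 : (∑ k ∈ Finset.range M, cj A' s ^ k + cj A' s ^ M :
              AddMonoid.End (Additive A')) a =
              (∑ k ∈ Finset.range M, cj A' s ^ k : AddMonoid.End (Additive A')) a +
              (cj A' s ^ M) a := rfl
          rw [pow_succ, ih, Finset.sum_range_succ, h4, toMul_add,
            Subgroup.coe_mul, cj_pow A' s M, cj_apply, pow_succ]
          group
      have h3 := hform N
      rw [hexp, hexp, mul_one] at h3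
      simp only [map_pow, aeval_X]
      exact h3.symm
    · rw [finsetSum_coeff]
      have : ∑ k ∈ Finset.range N, (X ^ k : ℤ[X]).coeff 0 = 1 := by
        rw [Finset.sum_eq_single 0]
        · simp
        · intro k _ hk
          rw [coeff_X_pow, if_neg (Ne.symm hk)]
        · intro h1
          exact absurd (Finset.mem_range.2 (Nat.pos_of_ne_zero hN)) h1
      rw [this]
      intro h1
      have h2 := Int.natCast_dvd_natCast.1 (by simpa using h1 : (p : ℤ) ∣ ((1 : ℕ) : ℤ))
      exact hp.one_lt.ne' (Nat.dvd_one.1 h2)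
  · push Not at hdiv
    obtain ⟨i, hi⟩ := hdiv
    obtain ⟨N, g, hg⟩ := LaurentPolynomial.exists_T_pow ((gen n w).m i)
    refine ⟨g, ?_, ?_⟩
    · intro E' _ A' _ _ hE' s
      rw [← evL_poly, hg, map_mul]
      have h1 : evL A' s ((gen n w).m i) = 0 := by
        ext a
        classical
        have h2 := (hlaw E' A' hE' s (Pi.mulSingle i a.toMul)).2
        have h3 : phiL A' s (Pi.mulSingle i a.toMul) (gen n w).m =
            evL A' s ((gen n w).m i) a := by
          conv_lhs => rw [← Finsupp.sum_single (gen n w).m, Finsupp.sum, map_sum]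
          rw [Finset.sum_eq_single i]
          · rw [phiL_single, Pi.mulSingle_eq_same]; rfl
          · intro j _ hj
            rw [phiL_single, Pi.mulSingle_eq_of_ne hj]
            exact map_zero _
          · intro h4
            rw [Finsupp.notMem_support_iff.1 h4, Finsupp.single_zero, map_zero]
        rw [← h3, h2]; rfl
      rw [h1, zero_mul]
    · by_contra hall
      push Not at hall
      obtain ⟨g', hg'⟩ := (C_dvd_iff_dvd_coeff (p : ℤ) g).2 hall
      apply hi
      refine ⟨toLaurent g' * LaurentPolynomial.T (-N), ?_⟩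
      have h1 : (gen n w).m i = toLaurent g * LaurentPolynomial.T (-N) := by
        rw [hg, mul_assoc, ← LaurentPolynomial.T_add]; simp
      rw [h1, hg', map_mul]
      simp [mul_assoc]

theorem cls_of {W : Set (FreeGroup ℕ)} (h : ∀ p : ℕ, p.Prime → ¬ AbCyc p W) :
    ∀ (E : Type) [Group E], Law W E → Orb E := by
  obtain ⟨Ω, hΩ, hm⟩ := exists_monic (JW W) JW_comp fun p hp => exists_poly hp (h p hp)
  intro E _ hE
  exact orb_of_monic hΩ hm E hE

/-- main result of this part -/
theorem fps_of_virtSol {W : Set (FreeGroup ℕ)} (h : ∀ p : ℕ, p.Prime → ¬ AbCyc p W)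
    (E : Type) [Group E] (hE : Law W E) (hfg : Group.FG E) (hv : VirtSol E) : FPS E :=
  virt_FPS ⟨fun E _ => Law W E, fun _ _ S h => h.sub S, fun _ _ _ _ f hf h => h.quo f hf,
    cls_of h⟩ E hE hfg hv

end Pool.H22.BH
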