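import Pool.Agent.H22.BH.Coeff
import Pool.Agent.H22.BH.Res
import Pool.Agent.H22.BH.SD
import Pool.Agent.H22.BH.H2c

/-! Varieties containing all (elementary abelian p)-by-cyclic groups: `H₂` is not finitely
generated. -/

namespace Pool.H22.BH

open Pool.H22.Rad
open scoped commutatorElement

/-- the verbal subgroup, written as a normal closure -/
def VG (W : Set (FreeGroup ℕ)) (G : Type) [Group G] : Subgroup G :=
  Subgroup.normalClosure {g : G | ∃ w ∈ W, ∃ f : ℕ → G, FreeGroup.lift f w = g}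

instance (W : Set (FreeGroup ℕ)) (G : Type) [Group G] : (VG W G).Normal :=
  Subgroup.normalClosure_normal

theorem VG_mem {W : Set (FreeGroup ℕ)} {G : Type} [Group G] {w : FreeGroup ℕ} (hw : w ∈ W)
    (f : ℕ → G) : FreeGroup.lift f w ∈ VG W G :=
  Subgroup.subset_normalClosure ⟨w, hw, f, rfl⟩

theorem Law.kills {W : Set (FreeGroup ℕ)} {G E : Type} [Group G] [Group E] (hE : Law W E)
    (φ : G →* E) {x : G} (hx : x ∈ VG W G) : φ x = 1 := by
  have h : VG W G ≤ φ.ker := by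
    refine Subgroup.normalClosure_le_normal ?_
    rintro _ ⟨w, hw, f, rfl⟩
    change φ (FreeGroup.lift f w) = 1
    have h1 : φ.comp (FreeGroup.lift f) = FreeGroup.lift (fun i => φ (f i)) := by
      ext i; simp
    rw [← MonoidHom.comp_apply, h1]
    exact hE w hw _
  exact h hx

theorem VG_map {W : Set (FreeGroup ℕ)} {G E : Type} [Group G] [Group E] (φ : G →* E)
    (hφ : Function.Surjective φ) : (VG W G).map φ = VG W E := by
  rw [VG, Subgroup.map_normalClosure _ _ hφ, VG]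
  congr 1
  ext x
  constructor
  · rintro ⟨_, ⟨w, hw, f, rfl⟩, rfl⟩
    refine ⟨w, hw, fun i => φ (f i), ?_⟩
    have h1 : φ.comp (FreeGroup.lift f) = FreeGroup.lift (fun i => φ (f i)) := by
      ext i; simp
    rw [← h1]; rfl
  · rintro ⟨w, hw, f, rfl⟩
    choose s hs using hφ
    refine ⟨FreeGroup.lift (fun i => s (f i)) w, ⟨w, hw, _, rfl⟩, ?_⟩
    have h1 : φ.comp (FreeGroup.lift fun i => s (f i)) = FreeGroup.lift f := by
      ext i; simp [hs]
    rw [← h1]; rfl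

theorem law_zmod {W : Set (FreeGroup ℕ)} {p : ℕ} (h : AbCyc p W) (N : ℕ) :
    Law W (Multiplicative (ZMod N)) := by
  refine h _ ⊥ inferInstance ?_ ?_ ⟨Multiplicative.ofAdd 1, ?_⟩
  · intro a ha b hb
    rw [Subgroup.mem_bot.1 ha, Subgroup.mem_bot.1 hb]
  · intro a ha
    rw [Subgroup.mem_bot.1 ha, one_pow]
  · intro x
    obtain ⟨n, hn⟩ := ZMod.intCast_surjective x.toAdd
    refine ⟨-n, ?_⟩
    rw [Subgroup.mem_bot, zpow_neg, ← ofAdd_zsmul, zsmul_one, hn]
    exact mul_inv_cancel x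

theorem law_wr {W : Set (FreeGroup ℕ)} {p : ℕ} [Fact p.Prime] (h : AbCyc p W) (N : ℕ) :
    Law W (Wr (Multiplicative (ZMod p)) (Multiplicative (ZMod N))) := by
  let A : Subgroup (Wr (Multiplicative (ZMod p)) (Multiplicative (ZMod N))) :=
    (Wr.proj : Wr (Multiplicative (ZMod p)) (Multiplicative (ZMod N)) →* _).ker
  have hA : ∀ a, a ∈ A ↔ a.q = 1 := fun a => Iff.rfl
  have hpow : ∀ x : Multiplicative (ZMod p), x ^ p = 1 := by
    intro x
    have : (p • x.toAdd) = 0 := by simp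
    exact this
  refine h _ A inferInstance ?_ ?_ ⟨⟨fun _ => 1, Multiplicative.ofAdd 1⟩, ?_⟩
  · intro a ha b hb
    rw [hA] at ha hb
    ext x
    · rw [Wr.mul_f_of_q ha, Wr.mul_f_of_q hb, mul_comm]
    · rw [Wr.mul_q, Wr.mul_q, ha, hb]
  · intro a ha
    rw [hA] at ha
    ext x
    · rw [Wr.pow_f_of_q ha, hpow, Wr.one_f]
    · rw [Wr.pow_q, ha, one_pow, Wr.one_q]
  · intro x
    obtain ⟨n, hn⟩ := ZMod.intCast_surjective x.q.toAdd
    refine ⟨-n, ?_⟩
    rw [hA, Wr.mul_q]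
    have h1 : ((⟨fun _ => 1, Multiplicative.ofAdd 1⟩ :
      Wr (Multiplicative (ZMod p)) (Multiplicative (ZMod N))) ^ (-n)).q =
      (Multiplicative.ofAdd (1 : ZMod N)) ^ (-n) :=
      map_zpow (Wr.proj : Wr (Multiplicative (ZMod p)) (Multiplicative (ZMod N)) →* _) _ _
    rw [h1, zpow_neg, ← ofAdd_zsmul, zsmul_one, hn]
    exact mul_inv_cancel x.q

/-- the pure shift -/
def shf (Q : Type) [Group Q] (N : ℕ) (a : ZMod N) : Wr Q (Multiplicative (ZMod N)) :=
  ⟨fun _ => 1, Multiplicative.ofAdd a⟩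

theorem shf_zpow (Q : Type) [Group Q] (N : ℕ) (n : ℤ) :
    (shf Q N 1) ^ n = shf Q N (n : ZMod N) := by
  let φ : Multiplicative (ZMod N) →* Wr Q (Multiplicative (ZMod N)) :=
    { toFun := fun x => shf Q N x.toAdd
      map_one' := rfl
      map_mul' := fun x y => by ext z <;> simp [shf] }
  have h1 : shf Q N 1 = φ (Multiplicative.ofAdd 1) := rfl
  rw [h1, ← map_zpow, ← ofAdd_zsmul, zsmul_one]
  rfl

theorem part1 {q m : ℕ} (hq : m + 2 ≤ q) (r : Fin m → FreeGroup (Fin q)) (χ : Fin q → ℤ)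
    (u : FreeGroup (Fin q))
    (hχr : ∀ j, (FreeGroup.lift (fun i => Multiplicative.ofAdd (χ i)) (r j)) = 1)
    (hu : (FreeGroup.lift (fun i => Multiplicative.ofAdd (χ i)) u) = Multiplicative.ofAdd 1)
    {W : Set (FreeGroup ℕ)} {p : ℕ} [hp : Fact p.Prime] (hW : AbCyc p W)
    {w0 : FreeGroup ℕ} (hw0 : w0 ∈ W) (hw1 : w0 ≠ 1) (X : Set (FreeGroup (Fin q)))
    (hX : X.Finite) (hXV : X ⊆ VG W (FreeGroup (Fin q))) :
    ∃ (Γ : Type) (_ : Group Γ) (_ : Finite Γ) (Θ : FreeGroup (Fin q) →* Γ), IsPGroup p Γ ∧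
      (∀ j, Θ (r j) = 1) ∧ (∀ x ∈ X, Θ x = 1) ∧ ∃ v ∈ VG W (FreeGroup (Fin q)), Θ v ≠ 1 := by
  classical
  obtain ⟨Q, _, _, f, hQ, hcl, hf⟩ := res_p' p w0 hw1
  choose B hB using local_form χ
  -- the window
  let Y : Set (FreeGroup (Fin q)) := insert u (Set.range r ∪ X)
  have hY : Y.Finite := ((Set.finite_range r).union hX).insert u
  obtain ⟨L, hL⟩ : ∃ L, ∀ y ∈ Y, B y ≤ L := by
    obtain ⟨L, hL⟩ := (hY.image B).bddAbove
    exact ⟨L, fun y hy => hL ⟨y, hy, rfl⟩⟩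
  -- the sizes
  let e := 2 * L * q + 2 * L
  let g := Nat.card Q
  let M := p ^ e
  let N := p ^ (e + g)
  have hp1 : 1 < p := hp.out.one_lt
  have hMe : e < M := Nat.lt_pow_self hp1
  have hgg : g < p ^ g := Nat.lt_pow_self hp1
  have hN : N = M * p ^ g := pow_add p e g
  have : NeZero M := ⟨pow_ne_zero _ hp.out.ne_zero⟩
  have : NeZero N := ⟨pow_ne_zero _ hp.out.ne_zero⟩
  have h2L : 2 * L ≤ M := by omega
  have hdim : (m + 1) * M < q * (M - 2 * L) := by
    have h1 : q * (M - 2 * L) = q * M - q * (2 * L) := Nat.mul_sub _ _ _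
    have h2 : (m + 2) * M ≤ q * M := Nat.mul_le_mul_right M hq
    have h3 : (m + 2) * M = (m + 1) * M + M := by ring
    have h4 : q * (2 * L) = 2 * L * q := by ring
    rw [h1]
    omega
  obtain ⟨c, hc1, ⟨i0, y0, hc2⟩, hc3⟩ := exists_coeff (p := p) (M := M) χ
    (Fin.cons u r : Fin (m + 1) → FreeGroup (Fin q)) hdim h2L
  have hcu : ∀ y, (lam χ c u).f y = 1 := fun y => hc3 0 y
  have hcr : ∀ j y, (lam χ c (r j)).f y = 1 := fun j y => hc3 j.succ y
  -- the local homomorphisms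
  let en : Q ≃ Fin g := Finite.equivFin Q
  let z : ℕ → Q := fun k => if h : k < g then
    (if (en.symm ⟨k, h⟩) ^ p = 1 then en.symm ⟨k, h⟩ else 1) else 1
  have hz : ∀ k, z k ^ p = 1 := by
    intro k
    simp only [z]
    split_ifs with h1 h2
    · exact h2
    · exact one_pow p
    · exact one_pow p
  let ζ : ℕ → Multiplicative (ZMod p) →* Q := fun k =>
    AddMonoidHom.toMultiplicativeLeft (ZMod.lift p ⟨zmultiplesHom (Additive Q) (Additive.ofMul (z k)), by
      rw [zmultiplesHom_apply, natCast_zsmul, ← ofMul_pow, hz]; rfl⟩)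
  have hζ : ∀ k, ζ k (Multiplicative.ofAdd 1) = z k := by
    intro k
    have h1 : (ZMod.lift p ⟨zmultiplesHom (Additive Q) (Additive.ofMul (z k)), by
      rw [zmultiplesHom_apply, natCast_zsmul, ← ofMul_pow, hz]; rfl⟩) ((1 : ℤ) : ZMod p) =
      Additive.ofMul (z k) := by
      rw [ZMod.lift_coe, zmultiplesHom_apply, one_zsmul]
    rw [Int.cast_one] at h1
    exact h1
  let D : Dat (Fin q) (Multiplicative (ZMod p)) Q M N :=
    { χ := χ, c := c, ζ := ζ, L := L, hMN := pow_dvd_pow p (Nat.le_add_right e g), hL := h2L,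
      hc := hc1 }
  have hΛ : ∀ w, D.Λ w = lam χ c w := fun w => rfl
  have hexp : ∀ w, D.e w = (FreeGroup.lift (fun i => Multiplicative.ofAdd (χ i)) w :
    Multiplicative ℤ).toAdd := fun w => rfl
  -- trivial coefficients give trivial functions
  have hone : ∀ y ∈ Y, (∀ x, (lam χ c y).f x = 1) → ∀ x, (D.Θ y).f x = 1 := by
    intro y hy h1 x
    have h2 := hB y (Multiplicative (ZMod p)) Q M N D rfl x.toAdd 0 (by
      simpa using hL y hy)
    rw [Int.cast_zero, add_zero] at h2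
    rw [show x = Multiplicative.ofAdd x.toAdd from rfl, h2, hΛ, h1, map_one]
  have hΘr : ∀ j, D.Θ (r j) = 1 := by
    intro j
    ext x
    · exact hone (r j) (Or.inr (Or.inl ⟨j, rfl⟩)) (hcr j) x
    · rw [D.Θ_q, hexp, hχr j]
      change Multiplicative.ofAdd (((0 : ℤ)) : ZMod N) = 1
      rw [Int.cast_zero]; rfl
  have hΘX : ∀ x ∈ X, D.Θ x = 1 := by
    intro x hx
    have h1 : lam χ c x = 1 := (law_wr hW M).kills (lam χ c) (hXV hx)
    ext a
    · exact hone x (Or.inr (Or.inr hx)) (fun y => by rw [h1, Wr.one_f]) a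
    · exact (law_zmod hW N).kills (Wr.proj.comp D.Θ) (hXV hx)
  have hΘu : D.Θ u = shf Q N 1 := by
    ext x
    · exact hone u (Or.inl rfl) hcu x
    · rw [D.Θ_q, hexp, hu]
      change Multiplicative.ofAdd (((1 : ℤ)) : ZMod N) = _
      rw [Int.cast_one]; rfl
  refine ⟨Wr Q (Multiplicative (ZMod N)), inferInstance, inferInstance, D.Θ,
    wr_pgroup hQ (zmod_pgroup _), hΘr, hΘX, ?_⟩
  -- the base point
  let x0 : ZMod N := ((y0.val : ℕ) : ZMod N)
  let K : Subgroup Q :=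
    { carrier := {y | ∃ h : FreeGroup (Fin q), (D.Θ h).q = 1 ∧
        (D.Θ h).f (Multiplicative.ofAdd x0) = y}
      one_mem' := ⟨1, by simp, by simp⟩
      mul_mem' := by
        rintro _ _ ⟨a, ha, rfl⟩ ⟨b, hb, rfl⟩
        refine ⟨a * b, ?_, ?_⟩
        · rw [map_mul, Wr.mul_q, ha, hb, mul_one]
        · rw [map_mul, Wr.mul_f_of_q ha]
      inv_mem' := by
        rintro _ ⟨a, ha, rfl⟩
        refine ⟨a⁻¹, ?_, ?_⟩
        · rw [map_inv, Wr.inv_q, ha, inv_one]
        · rw [map_inv, Wr.inv_f_of_q ha] }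
  have hzK : ∀ k < g, z k ∈ K := by
    intro k hk
    let h1 : FreeGroup (Fin q) := u ^ ((k * M : ℕ) : ℤ) * FreeGroup.of i0 * u ^ (-χ i0) *
      u ^ (-((k * M : ℕ) : ℤ))
    have hΘi : D.Θ (FreeGroup.of i0) = ⟨fun x => D.ζ (Dat.κ (M := M) x.toAdd)
      (D.c i0 (D.red x.toAdd)), Multiplicative.ofAdd (χ i0 : ZMod N)⟩ := FreeGroup.lift_apply_of
    have hq1 : (D.Θ h1).q = 1 := by
      rw [D.Θ_q, hexp]
      simp only [h1, map_mul, map_zpow, hu, FreeGroup.lift_apply_of, toAdd_mul, toAdd_zpow,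
        toAdd_ofAdd, smul_eq_mul, mul_one]
      rw [show ((k * M : ℕ) : ℤ) + χ i0 + -χ i0 + -((k * M : ℕ) : ℤ) = 0 by ring, Int.cast_zero]
      rfl
    have hy0 : y0.val < M := ZMod.val_lt y0
    have hval : (x0 + ((k * M : ℕ) : ZMod N)).val = y0.val + k * M := by
      simp only [x0]
      rw [← Nat.cast_add, ZMod.val_natCast, Nat.mod_eq_of_lt]
      have h2 : (k + 1) * M ≤ p ^ g * M := Nat.mul_le_mul_right M (by omega)
      have h3 : p ^ g * M = N := by rw [hN]; ring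
      have h4 : (k + 1) * M = k * M + M := by ring
      omega
    have hf1 : (D.Θ h1).f (Multiplicative.ofAdd x0) = ζ k (c i0 y0) := by
      simp only [h1, map_mul, map_zpow, hΘu, shf_zpow, hΘi, Wr.mul_f, Wr.mul_q]
      simp only [shf, mul_one, one_mul]
      have h5 : (Multiplicative.ofAdd x0 * Multiplicative.ofAdd ((((k * M : ℕ) : ℤ)) : ZMod N)) =
        Multiplicative.ofAdd (x0 + ((k * M : ℕ) : ZMod N)) := by
        rw [← ofAdd_add, Int.cast_natCast]
      rw [h5, toAdd_ofAdd]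
      have h6 : Dat.κ (M := M) (x0 + ((k * M : ℕ) : ZMod N)) = k := by
        rw [Dat.κ, hval, Nat.add_mul_div_right _ _ (Nat.pos_of_ne_zero (NeZero.ne M)),
          Nat.div_eq_of_lt hy0, zero_add]
      have h7 : D.red (x0 + ((k * M : ℕ) : ZMod N)) = y0 := by
        apply ZMod.val_injective
        rw [D.red_val, hval, Nat.add_mul_mod_self_right, Nat.mod_eq_of_lt hy0]
      rw [h6, h7]
    -- a power of the coefficient is the generator
    obtain ⟨s, hs⟩ : ∃ s : ℕ, (c i0 y0) ^ s = Multiplicative.ofAdd (1 : ZMod p) := by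
      have hne : (c i0 y0).toAdd ≠ 0 := hc2
      refine ⟨((c i0 y0).toAdd⁻¹).val, ?_⟩
      have h8 : ((c i0 y0).toAdd⁻¹).val • (c i0 y0).toAdd = 1 := by
        rw [nsmul_eq_mul, ZMod.natCast_zmod_val, inv_mul_cancel₀ hne]
      exact h8
    have h9 : ζ k (c i0 y0) ∈ K := ⟨h1, hq1, hf1⟩
    have h10 := K.pow_mem h9 s
    rw [← map_pow, hs, hζ] at h10
    exact h10
  have hK : Subgroup.closure {x : Q | x ^ p = 1} ≤ K := by
    rw [Subgroup.closure_le]
    intro x hx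
    have h1 : z (en x).1 = x := by
      simp only [z]
      rw [dif_pos (en x).2]
      have h2 : en.symm ⟨(en x).1, (en x).2⟩ = x := en.symm_apply_apply x
      rw [h2, if_pos (show x ^ p = 1 from hx)]
    change x ∈ K
    rw [← h1]
    exact hzK _ (en x).2
  choose h hh1 hh2 using fun i => hK (hcl i)
  refine ⟨FreeGroup.lift h w0, VG_mem hw0 h, ?_⟩
  intro h1
  apply hf
  have h2 : ∀ v : FreeGroup ℕ, (D.Θ (FreeGroup.lift h v)).q = 1 ∧
      (D.Θ (FreeGroup.lift h v)).f (Multiplicative.ofAdd x0) = FreeGroup.lift f v := by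
    intro v
    induction v using FreeGroup.induction_on with
    | C1 => simp
    | of i => rw [FreeGroup.lift_apply_of, FreeGroup.lift_apply_of]; exact ⟨hh1 i, hh2 i⟩
    | inv_of i ih =>
      rw [map_inv, map_inv, map_inv, Wr.inv_q, ih.1, inv_one, Wr.inv_f_of_q ih.1, ih.2]
      exact ⟨rfl, rfl⟩
    | mul x y hx hy =>
      rw [map_mul, map_mul, map_mul, Wr.mul_q, Wr.mul_f_of_q hx.1, hx.1, hy.1, hx.2, hy.2]
      exact ⟨mul_one _, rfl⟩
  rw [← (h2 w0).2, h1]
  rfl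

end Pool.H22.BH
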