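import Pool.Agent.H22.BH.Main1
import Pool.Agent.H22.BH.H2b

/-! Assembly. -/

namespace Pool.H22.BH

open Pool.H22.Rad
open scoped commutatorElement

/-- finite generation of the second homology of the verbal quotient -/
def H2fg (W : Set (FreeGroup ℕ)) (G : Type) [Group G] : Prop :=
  Module.Finite ℤ (groupHomology (Rep.trivial ℤ (G ⧸ VG W G) ℤ) 2)

theorem no_fin {q m : ℕ} (hq : m + 2 ≤ q) (r : Fin m → FreeGroup (Fin q)) (χ : Fin q → ℤ)
    (u : FreeGroup (Fin q))
    (hχr : ∀ j, (FreeGroup.lift (fun i => Multiplicative.ofAdd (χ i)) (r j)) = 1)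
    (hu : (FreeGroup.lift (fun i => Multiplicative.ofAdd (χ i)) u) = Multiplicative.ofAdd 1)
    {W : Set (FreeGroup ℕ)} {p : ℕ} (hp : p.Prime) (hW : AbCyc p W)
    (hne : ∃ w ∈ W, w ≠ 1) (G : Type) [Group G] (π : FreeGroup (Fin q) →* G)
    (hπ : Function.Surjective π) (hker : π.ker = Subgroup.normalClosure (Set.range r)) :
    ¬ H2fg W G := by
  intro hH
  have hpf : Fact p.Prime := ⟨hp⟩
  obtain ⟨w0, hw0, hw1⟩ := hne
  have hG : Group.FG G := Group.fg_of_surjective hπ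
  obtain ⟨X, hX, hXV, hcl⟩ := exists_finite_of_H2 hG (VG W G) hH
  have hmap := VG_map (W := W) π hπ
  have hlift : ∀ x : G, x ∈ X → ∃ y, y ∈ VG W (FreeGroup (Fin q)) ∧ π y = x := by
    intro x hx
    have h1 : x ∈ (VG W (FreeGroup (Fin q))).map π := by rw [hmap]; exact hXV hx
    obtain ⟨y, hy, hyx⟩ := h1
    exact ⟨y, hy, hyx⟩
  choose! s hs1 hs2 using hlift
  obtain ⟨Γ, _, _, Θ, hΓ, hΘr, hΘX, v, hv, hΘv⟩ := part1 hq r χ u hχr hu hW hw0 hw1 (s '' X)
    (hX.image _) (by rintro _ ⟨x, hx, rfl⟩; exact hs1 x hx)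
  have hkerle : π.ker ≤ Θ.ker := by
    rw [hker]
    refine Subgroup.normalClosure_le_normal ?_
    rintro _ ⟨j, rfl⟩
    exact hΘr j
  let Θ' : G →* Γ := π.liftOfSurjective hπ ⟨Θ, hkerle⟩
  have hΘ' : ∀ y, Θ' (π y) = Θ y := fun y =>
    MonoidHom.liftOfRightInverse_comp_apply _ _ _ ⟨Θ, hkerle⟩ y
  have hX' : (Subgroup.closure X).map Θ' = ⊥ := by
    rw [eq_bot_iff, MonoidHom.map_closure, Subgroup.closure_le]
    rintro _ ⟨x, hx, rfl⟩
    change Θ' x = 1
    rw [← hs2 x hx, hΘ']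
    exact hΘX _ ⟨x, hx, rfl⟩
  have hnil : Group.IsNilpotent Γ := hΓ.isNilpotent
  have key : ∀ n, (VG W G).map Θ' ≤ (⊤ : Subgroup Γ).lowerCentralSeries n := by
    intro n
    induction n with
    | zero => simp
    | succ n ih =>
      have h1 : (VG W G).map Θ' ≤ (Subgroup.closure X ⊔ ⁅VG W G, (⊤ : Subgroup G)⁆).map Θ' :=
        Subgroup.map_mono hcl
      rw [Subgroup.map_sup, hX', bot_sup_eq, Subgroup.map_commutator] at h1
      refine h1.trans ?_
      exact Subgroup.commutator_mono ih le_top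
  obtain ⟨n, hn⟩ := Subgroup.nilpotent_iff_lowerCentralSeries.1 hnil
  have h2 := key n
  rw [hn] at h2
  have h3 : Θ' (π v) ∈ (⊥ : Subgroup Γ) := h2 ⟨π v, by rw [← hmap]; exact ⟨v, hv, rfl⟩, rfl⟩
  rw [hΘ'] at h3
  exact hΘv h3

theorem exists_dir (e0 e1 : ℤ) : ∃ a b s t : ℤ, a * e0 + b * e1 = 0 ∧ s * a + t * b = 1 := by
  by_cases h : e0 = 0 ∧ e1 = 0
  · exact ⟨1, 0, 1, 0, by rw [h.1, h.2]; ring, by ring⟩
  · have hpos : 0 < Int.gcd e0 e1 := by
      rw [Nat.pos_iff_ne_zero, Ne, Int.gcd_eq_zero_iff]; exact h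
    obtain ⟨x, y, hxy, hx, hy⟩ := Int.exists_gcd_one hpos
    have hc : IsCoprime x y := Int.isCoprime_iff_gcd_eq_one.2 hxy
    obtain ⟨s, t, hst⟩ := hc
    refine ⟨y, -x, t, -s, ?_, by linarith⟩
    have h1 : y * (x * (Int.gcd e0 e1 : ℤ)) + -x * (y * (Int.gcd e0 e1 : ℤ)) = 0 := by ring
    rwa [← hx, ← hy] at h1

/-- one relator -/
theorem no_fin_one {q : ℕ} (hq : 3 ≤ q) (r : FreeGroup (Fin q))
    {W : Set (FreeGroup ℕ)} {p : ℕ} (hp : p.Prime) (hW : AbCyc p W)
    (hne : ∃ w ∈ W, w ≠ 1) : ¬ H2fg W (PresentedGroup ({r} : Set (FreeGroup (Fin q)))) := by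
  classical
  let i0 : Fin q := ⟨0, by omega⟩
  let i1 : Fin q := ⟨1, by omega⟩
  have h01 : i1 ≠ i0 := by simp [i0, i1]
  let ex : Fin q → FreeGroup (Fin q) →* Multiplicative ℤ := fun i =>
    FreeGroup.lift fun j => if j = i then Multiplicative.ofAdd 1 else 1
  obtain ⟨a, b, s, t, h1, h2⟩ := exists_dir (ex i0 r).toAdd (ex i1 r).toAdd
  let χ : Fin q → ℤ := fun j => if j = i0 then a else if j = i1 then b else 0
  have hχ : FreeGroup.lift (fun i => Multiplicative.ofAdd (χ i)) = (ex i0) ^ a * (ex i1) ^ b := by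
    ext j
    simp only [FreeGroup.lift_apply_of, MonoidHom.mul_apply, MonoidHom.zpow_apply, ex, χ]
    by_cases hj0 : j = i0
    · subst hj0
      simp [h01.symm]
    · by_cases hj1 : j = i1
      · subst hj1
        simp [hj0]
      · simp [hj0, hj1]
  refine no_fin (m := 1) (by omega) (fun _ => r) χ
    (FreeGroup.of i0 ^ s * FreeGroup.of i1 ^ t) ?_ ?_ hp hW hne _
    (PresentedGroup.mk ({r} : Set (FreeGroup (Fin q)))) (PresentedGroup.mk_surjective _) ?_
  · intro _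
    rw [hχ, MonoidHom.mul_apply, MonoidHom.zpow_apply, MonoidHom.zpow_apply]
    apply Multiplicative.toAdd.injective
    rw [toAdd_mul, toAdd_zpow, toAdd_zpow, smul_eq_mul, smul_eq_mul, h1]
    rfl
  · rw [map_mul, map_zpow, map_zpow, FreeGroup.lift_apply_of, FreeGroup.lift_apply_of,
      ← ofAdd_zsmul, ← ofAdd_zsmul, ← ofAdd_add]
    congr 1
  · rw [Set.range_const]
    exact QuotientGroup.ker_mk' _

/-- free groups -/
theorem no_fin_free {q : ℕ} (hq : 2 ≤ q) {W : Set (FreeGroup ℕ)} {p : ℕ} (hp : p.Prime)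
    (hW : AbCyc p W) (hne : ∃ w ∈ W, w ≠ 1) : ¬ H2fg W (FreeGroup (Fin q)) := by
  classical
  let i0 : Fin q := ⟨0, by omega⟩
  refine no_fin (m := 0) (by omega) (fun i => i.elim0) (fun j => if j = i0 then 1 else 0)
    (FreeGroup.of i0) (fun i => i.elim0) ?_ hp hW hne _ (MonoidHom.id _) Function.surjective_id ?_
  · simp
  · have h1 : Set.range (fun i : Fin 0 => (i.elim0 : FreeGroup (Fin q))) = ∅ := Set.range_eq_empty _
    rw [h1, Subgroup.normalClosure_empty]
    ext x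
    simp

theorem law_quot (W : Set (FreeGroup ℕ)) (G : Type) [Group G] : Law W (G ⧸ VG W G) := by
  intro w hw f
  choose s hs using fun x : G ⧸ VG W G => QuotientGroup.mk_surjective x
  have h1 : (QuotientGroup.mk' (VG W G)).comp (FreeGroup.lift (fun i => s (f i))) =
      FreeGroup.lift f := by
    ext i
    simp [hs]
  rw [← h1, MonoidHom.comp_apply]
  exact (QuotientGroup.eq_one_iff _).2 (VG_mem hw _)

theorem fin_of_fps {E : Type} [Group E] (h : FPS E) :
    Module.Finite ℤ (groupHomology (Rep.trivial ℤ E ℤ) 2) := by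
  obtain ⟨S, hS⟩ := h.1.out
  let e := S.equivFin
  let π : FreeGroup (Fin S.card) →* E := FreeGroup.lift fun i => (e.symm i : E)
  have hπ : Function.Surjective π := by
    rw [← MonoidHom.range_eq_top, eq_top_iff, ← hS, Subgroup.closure_le]
    intro x hx
    refine ⟨FreeGroup.of (e ⟨x, hx⟩), ?_⟩
    simp [π]
  obtain ⟨X, hX, hXk⟩ := h.2 (FreeGroup (Fin S.card)) inferInstance π hπ
  exact H2_fin_of_fp π hπ X hX hXk

/-- the quotient map between verbal quotients -/
theorem exists_quot {W : Set (FreeGroup ℕ)} {F G : Type} [Group F] [Group G] (π : F →* G)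
    (hπ : Function.Surjective π) :
    ∃ φ : (F ⧸ VG W F) →* (G ⧸ VG W G), Function.Surjective φ := by
  refine ⟨QuotientGroup.map _ _ π ?_, ?_⟩
  · rw [← VG_map π hπ]
    exact Subgroup.le_comap_map _ _
  · intro x
    obtain ⟨g, rfl⟩ := QuotientGroup.mk_surjective x
    obtain ⟨f, rfl⟩ := hπ g
    exact ⟨(f : F ⧸ VG W F), rfl⟩

theorem fin_of_virt {W : Set (FreeGroup ℕ)} (h : ∀ p : ℕ, p.Prime → ¬ AbCyc p W)
    {F G : Type} [Group F] [Group G] (hF : Group.FG F) (hv : VirtSol (F ⧸ VG W F)) (π : F →* G)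
    (hπ : Function.Surjective π) : H2fg W G := by
  obtain ⟨φ, hφ⟩ := exists_quot (W := W) π hπ
  have hG : Group.FG G := Group.fg_of_surjective hπ
  exact fin_of_fps (fps_of_virtSol h _ (law_quot W G) (QuotientGroup.fg _) (hv.quo φ hφ))

/-- the surjection from the free group of rank `q` to the one of rank `q - 1` -/
theorem free_surj (q : ℕ) : ∃ π : FreeGroup (Fin q) →* FreeGroup (Fin (q - 1)),
    Function.Surjective π := by
  let π : FreeGroup (Fin q) →* FreeGroup (Fin (q - 1)) :=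
    FreeGroup.lift fun i => if h : i.1 < q - 1 then FreeGroup.of ⟨i.1, h⟩ else 1
  refine ⟨π, ?_⟩
  let σ : FreeGroup (Fin (q - 1)) →* FreeGroup (Fin q) :=
    FreeGroup.lift fun i => FreeGroup.of ⟨i.1, by have := i.2; omega⟩
  have h : π.comp σ = MonoidHom.id _ := by
    ext i
    simp [π, σ]
  intro x
  exact ⟨σ x, DFunLike.congr_fun h x⟩

/-- the trivial set of laws -/
theorem fin_triv {W : Set (FreeGroup ℕ)} (hW : ∀ w ∈ W, w = 1) {q : ℕ} {G : Type} [Group G]
    (π : FreeGroup (Fin q) →* G) (hπ : Function.Surjective π) (X : Set (FreeGroup (Fin q)))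
    (hX : X.Finite) (hk : π.ker = Subgroup.normalClosure X) : H2fg W G := by
  have hV : VG W G = ⊥ := by
    rw [eq_bot_iff]
    refine Subgroup.normalClosure_le_normal ?_
    rintro _ ⟨w, hw, f, rfl⟩
    rw [hW w hw, map_one]
    exact Subgroup.one_mem _
  refine H2_fin_of_fp (E := G ⧸ VG W G) ((QuotientGroup.mk' (VG W G)).comp π)
    ((QuotientGroup.mk'_surjective _).comp hπ) X hX ?_
  rw [← hk]
  ext x
  rw [MonoidHom.mem_ker, MonoidHom.comp_apply, QuotientGroup.mk'_apply, QuotientGroup.eq_one_iff,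
    hV, Subgroup.mem_bot, MonoidHom.mem_ker]

end Pool.H22.BH
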