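import Pool.Agent.H22.BH.FPS2

/-! Finitely generated soluble groups with the orbit property are finitely presented. -/

namespace Pool.H22.BH

open scoped commutatorElement

/-- products of powers of the members of the list -/
def BGL {E : Type} [Group E] : List E → Set E
  | [] => {1}
  | t :: l => {x | ∃ k : ℤ, ∃ y ∈ BGL l, x = t ^ k * y}

/-- boundedly generated groups -/
def BG (E : Type) [Group E] : Prop := ∃ l : List E, ∀ x, x ∈ BGL l

section
variable {E Q : Type} [Group E] [Group Q]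

theorem BGL.one (l : List E) : (1 : E) ∈ BGL l := by
  induction l with
  | nil => rfl
  | cons t l ih => exact ⟨0, 1, ih, by simp⟩

theorem BGL.append {l1 l2 : List E} {x y : E} (hx : x ∈ BGL l1) (hy : y ∈ BGL l2) :
    x * y ∈ BGL (l1 ++ l2) := by
  induction l1 generalizing x with
  | nil =>
    rw [show x = 1 from hx, one_mul]; exact hy
  | cons t l ih =>
    obtain ⟨k, z, hz, rfl⟩ := hx
    exact ⟨k, z * y, ih hz, by rw [mul_assoc]⟩

theorem BGL.map (f : E →* Q) {l : List E} {x : E} (hx : x ∈ BGL l) : f x ∈ BGL (l.map f) := by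
  induction l generalizing x with
  | nil => rw [show x = 1 from hx, map_one]; rfl
  | cons t l ih =>
    obtain ⟨k, z, hz, rfl⟩ := hx
    exact ⟨k, f z, ih hz, by rw [map_mul, map_zpow]⟩

theorem BGL.lift (f : E →* Q) (s : Q → E) (hs : ∀ q, f (s q) = q) {l : List Q} {x : Q}
    (hx : x ∈ BGL l) : ∃ y ∈ BGL (l.map s), f y = x := by
  induction l generalizing x with
  | nil => exact ⟨1, rfl, by rw [map_one]; exact (show x = 1 from hx).symm⟩
  | cons t l ih =>
    obtain ⟨k, z, hz, rfl⟩ := hx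
    obtain ⟨y, hy, rfl⟩ := ih hz
    exact ⟨s t ^ k * y, ⟨k, y, hy, rfl⟩, by rw [map_mul, map_zpow, hs]⟩

theorem BG.ext (f : E →* Q) (hf : Function.Surjective f) (hQ : BG Q) (hN : BG f.ker) : BG E := by
  obtain ⟨lQ, hlQ⟩ := hQ
  obtain ⟨lN, hlN⟩ := hN
  choose s hs using hf
  refine ⟨lQ.map s ++ lN.map f.ker.subtype, ?_⟩
  intro x
  obtain ⟨y, hy, hyx⟩ := BGL.lift f s hs (hlQ (f x))
  have h1 : y⁻¹ * x ∈ f.ker := by rw [MonoidHom.mem_ker, map_mul, map_inv, hyx, inv_mul_cancel]
  have h2 := BGL.map f.ker.subtype (hlN ⟨_, h1⟩)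
  have h3 := BGL.append hy h2
  have h4 : y * f.ker.subtype ⟨y⁻¹ * x, h1⟩ = x := by simp
  rwa [h4] at h3

theorem BG.of_comm (hc : ∀ a b : E, a * b = b * a) (hE : Group.FG E) : BG E := by
  obtain ⟨S, hS⟩ := hE.out
  have hmul : ∀ (l : List E) (x y : E), x ∈ BGL l → y ∈ BGL l → x * y ∈ BGL l := by
    intro l
    induction l with
    | nil =>
      intro x y hx hy
      rw [show x = 1 from hx, show y = 1 from hy, mul_one]; rfl
    | cons t l ih =>
      rintro _ _ ⟨k, z, hz, rfl⟩ ⟨k', z', hz', rfl⟩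
      refine ⟨k + k', z * z', ih z z' hz hz', ?_⟩
      rw [zpow_add, mul_assoc, mul_assoc, ← mul_assoc z, hc z (t ^ k'), mul_assoc]
  have hinv : ∀ (l : List E) (x : E), x ∈ BGL l → x⁻¹ ∈ BGL l := by
    intro l
    induction l with
    | nil =>
      intro x hx
      rw [show x = 1 from hx, inv_one]; rfl
    | cons t l ih =>
      rintro _ ⟨k, z, hz, rfl⟩
      refine ⟨-k, z⁻¹, ih z hz, ?_⟩
      rw [mul_inv_rev, hc, zpow_neg]
  have hmem : ∀ (l : List E) (t : E), t ∈ l → t ∈ BGL l := by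
    intro l
    induction l with
    | nil => intro t ht; simp at ht
    | cons t' l ih =>
      intro t ht
      rcases List.mem_cons.1 ht with rfl | h
      · exact ⟨1, 1, BGL.one l, by simp⟩
      · exact ⟨0, t, ih t h, by simp⟩
  refine ⟨S.toList, ?_⟩
  let K : Subgroup E :=
    { carrier := BGL S.toList
      mul_mem' := fun {a b} ha hb => hmul _ a b ha hb
      one_mem' := BGL.one _
      inv_mem' := fun {a} ha => hinv _ a ha }
  have hK : K = ⊤ := by
    rw [eq_top_iff, ← hS, Subgroup.closure_le]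
    intro x hx
    exact hmem _ _ (by simpa using hx)
  intro x
  have : x ∈ K := hK ▸ Subgroup.mem_top x
  exact this

/-- the orbit property: cyclic submodules of abelian normal subgroups under one element are
finitely generated -/
def Orb (E : Type) [Group E] : Prop :=
  ∀ A : Subgroup E, A.Normal → (∀ a ∈ A, ∀ b ∈ A, a * b = b * a) → ∀ t : E, ∀ a ∈ A,
    ∃ S : Subgroup E, S ≤ A ∧ S.FG ∧ ∀ k : ℤ, t ^ k * a * (t ^ k)⁻¹ ∈ S

theorem Orb.fg (h : Orb E) (A : Subgroup E) (hA : A.Normal)
    (hc : ∀ a ∈ A, ∀ b ∈ A, a * b = b * a) (t : E) (S : Subgroup E) (hS : S.FG) (hSA : S ≤ A) :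
    ∃ S' : Subgroup E, S' ≤ A ∧ S'.FG ∧ ∀ x ∈ S, ∀ k : ℤ, t ^ k * x * (t ^ k)⁻¹ ∈ S' := by
  classical
  obtain ⟨X, rfl⟩ := hS
  have hX : ∀ x ∈ X, x ∈ A := fun x hx => hSA (Subgroup.subset_closure hx)
  choose! T hT1 hT2 hT3 using h A hA hc t
  refine ⟨⨆ x ∈ X, T x, ?_, ?_, ?_⟩
  · exact iSup₂_le fun x hx => hT1 x (hX x hx)
  · exact Subgroup.FG.biSup_finset X T fun x hx => hT2 x (hX x hx)
  · intro x hx k
    have : Subgroup.closure (X : Set E) ≤
        (⨆ x ∈ X, T x).comap (MulAut.conj (t ^ k)).toMonoidHom := by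
      rw [Subgroup.closure_le]
      intro y hy
      have h1 : T y ≤ ⨆ x ∈ X, T x := le_iSup₂_of_le y hy le_rfl
      exact h1 (hT3 y (hX y hy) k)
    exact this hx

theorem Orb.list (h : Orb E) (A : Subgroup E) (hA : A.Normal)
    (hc : ∀ a ∈ A, ∀ b ∈ A, a * b = b * a) (l : List E) (S : Subgroup E) (hS : S.FG)
    (hSA : S ≤ A) :
    ∃ S' : Subgroup E, S' ≤ A ∧ S'.FG ∧ ∀ x ∈ S, ∀ e ∈ BGL l, e * x * e⁻¹ ∈ S' := by
  induction l with
  | nil =>
    refine ⟨S, hSA, hS, ?_⟩
    intro x hx e he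
    rw [show e = 1 from he, one_mul, inv_one, mul_one]; exact hx
  | cons t l ih =>
    obtain ⟨S1, h1, h2, h3⟩ := ih
    obtain ⟨S2, h4, h5, h6⟩ := h.fg A hA hc t S1 h2 h1
    refine ⟨S2, h4, h5, ?_⟩
    rintro x hx _ ⟨k, y, hy, rfl⟩
    have h7 := h6 _ (h3 x hx y hy) k
    have h8 : t ^ k * (y * x * y⁻¹) * (t ^ k)⁻¹ = t ^ k * y * x * (t ^ k * y)⁻¹ := by group
    rwa [h8] at h7

end

/-- a class of groups closed under quotients and subgroups, all with the orbit property -/
structure Cls where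
  /-- membership -/
  P : ∀ (E : Type) [Group E], Prop
  sub : ∀ (E : Type) [Group E] (S : Subgroup E), P E → P S
  quo : ∀ (E Q : Type) [Group E] [Group Q] (f : E →* Q), Function.Surjective f → P E → P Q
  orb : ∀ (E : Type) [Group E], P E → Orb E

theorem sol_FPS (V : Cls) (n : ℕ) : ∀ (E : Type) [Group E], V.P E → Group.FG E →
    derivedSeries E n = ⊥ → FPS E ∧ BG E := by
  induction n with
  | zero =>
    intro E _ _ hfg h0
    have hc : ∀ a b : E, a * b = b * a := by
      intro a b
      have h1 : ∀ x : E, x = 1 := by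
        intro x
        have : x ∈ derivedSeries E 0 := by rw [derivedSeries_zero]; exact Subgroup.mem_top x
        rw [h0] at this
        exact this
      rw [h1 a, h1 b]
    exact ⟨FPS.of_comm E hc hfg, BG.of_comm hc hfg⟩
  | succ n ih =>
    intro E _ hP hfg hn
    let A : Subgroup E := derivedSeries E n
    have hA : A.Normal := derivedSeries_normal E n
    have hAc : ∀ a ∈ A, ∀ b ∈ A, a * b = b * a := by
      intro a ha b hb
      have h1 : ⁅a, b⁆ ∈ derivedSeries E (n + 1) := by
        rw [derivedSeries_succ]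
        exact Subgroup.commutator_mem_commutator ha hb
      rw [hn] at h1
      exact commutatorElement_eq_one_iff_mul_comm.1 h1
    let f : E →* E ⧸ A := QuotientGroup.mk' A
    have hf : Function.Surjective f := QuotientGroup.mk'_surjective A
    have hker : f.ker = A := QuotientGroup.ker_mk' A
    have hQn : derivedSeries (E ⧸ A) n = ⊥ := by
      have h1 := map_derivedSeries_eq hf n
      rw [← h1, eq_bot_iff]
      rintro _ ⟨x, hx, rfl⟩
      exact (QuotientGroup.eq_one_iff x).2 hx
    obtain ⟨hQ1, hQ2⟩ := ih (E ⧸ A) (V.quo E _ f hf hP) (QuotientGroup.fg A) hQn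
    obtain ⟨X, hX, hXk⟩ := hQ1.2 E hfg f hf
    rw [hker] at hXk
    have hXA : X ⊆ A := by rw [hXk]; exact Subgroup.subset_normalClosure
    obtain ⟨l, hl⟩ := hQ2
    choose s hs using hf
    -- `A` is finitely generated
    obtain ⟨S, hSA, hSfg, hS⟩ := (V.orb E hP).list A hA hAc (l.map s) (Subgroup.closure X)
      ((Subgroup.fg_iff _).2 ⟨X, rfl, hX⟩) ((Subgroup.closure_le _).2 hXA)
    have hAS : A = S := by
      refine le_antisymm ?_ hSA
      have h1 : Subgroup.normalClosure X ≤ S := by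
        rw [Subgroup.normalClosure, Subgroup.closure_le]
        intro y hy
        obtain ⟨x, hx, hxy⟩ := Group.mem_conjugatesOfSet_iff.1 hy
        obtain ⟨c, rfl⟩ := isConj_iff.1 hxy
        obtain ⟨e, he, hec⟩ := BGL.lift f s hs (hl (f c))
        have h2 : e⁻¹ * c ∈ A := by
          rw [← hker, MonoidHom.mem_ker, map_mul, map_inv, hec, inv_mul_cancel]
        have h3 : c * x * c⁻¹ = e * x * e⁻¹ := by
          have h4 : (e⁻¹ * c) * x = x * (e⁻¹ * c) := hAc _ h2 _ (hXA hx)
          calc c * x * c⁻¹ = e * ((e⁻¹ * c) * x) * c⁻¹ := by group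
            _ = e * (x * (e⁻¹ * c)) * c⁻¹ := by rw [h4]
            _ = _ := by group
        rw [h3]
        exact hS x (Subgroup.subset_closure hx) e he
      rw [← hXk] at h1
      exact h1
    have hAfg : Group.FG A := by
      rw [Group.fg_iff_subgroup_fg, hAS]; exact hSfg
    have hkfg : Group.FG f.ker := by rw [hker]; exact hAfg
    have hkc : ∀ a b : f.ker, a * b = b * a := by
      intro a b
      apply Subtype.ext
      exact hAc _ (hker.le a.2) _ (hker.le b.2)
    exact ⟨FPS.ext f (QuotientGroup.mk'_surjective A) hQ1 (FPS.of_comm _ hkc hkfg),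
      BG.ext f (QuotientGroup.mk'_surjective A) ⟨l, hl⟩ (BG.of_comm hkc hkfg)⟩

/-- virtually soluble groups -/
def VirtSol (E : Type) [Group E] : Prop := ∃ S : Subgroup E, S.FiniteIndex ∧ Group.IsSolvable S

theorem VirtSol.quo {E Q : Type} [Group E] [Group Q] (f : E →* Q) (hf : Function.Surjective f)
    (h : VirtSol E) : VirtSol Q := by
  obtain ⟨S, hS, hsol⟩ := h
  refine ⟨S.map f, ?_, ?_⟩
  · exact ⟨fun h0 => hS.index_ne_zero (by
      have := Subgroup.index_map_dvd S hf
      rw [h0] at this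
      exact Nat.eq_zero_of_zero_dvd this)⟩
  · have : Function.Surjective (f.subgroupMap S) := f.subgroupMap_surjective S
    exact Group.isSolvable_of_surjective this

theorem virt_FPS (V : Cls) (E : Type) [Group E] (hP : V.P E) (hfg : Group.FG E)
    (h : VirtSol E) : FPS E := by
  obtain ⟨S, hS, hsol⟩ := h
  let N := S.normalCore
  have hN : N.FiniteIndex := by
    have := hS
    exact inferInstance
  have hNs : Group.IsSolvable N := by
    have := hsol
    exact Group.isSolvable_of_isSolvable_injective (Subgroup.inclusion_injective S.normalCore_le)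
  have hNfg : Group.FG N := Subgroup.fg_of_index_ne_zero N
  obtain ⟨n, hn⟩ := hNs.solvable
  have h1 := (sol_FPS V n N (V.sub E N hP) hNfg hn).1
  let f : E →* E ⧸ N := QuotientGroup.mk' N
  have hker : f.ker = N := QuotientGroup.ker_mk' N
  have : Finite (E ⧸ N) := Subgroup.finite_quotient_of_finiteIndex
  refine FPS.ext f (QuotientGroup.mk'_surjective N) (FPS.of_finite _) ?_
  rw [hker]; exact h1

end Pool.H22.BH
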