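import Pool.Agent.H22.Rad.Wr

/-! The map to the wreath product and its local form. -/

namespace Pool.H22.BH

open Pool.H22.Rad

section
variable {ι : Type} {P Q : Type} [CommGroup P] [Group Q] {M N : ℕ} [NeZero M] [NeZero N]

/-- the data: exponents `χ`, coefficients `c`, local homomorphisms `ζ` -/
structure Dat (ι P Q : Type) [CommGroup P] [Group Q] (M N : ℕ) [NeZero M] [NeZero N] where
  /-- exponents -/
  χ : ι → ℤ
  /-- coefficients -/
  c : ι → ZMod M → P
  /-- the local homomorphisms -/
  ζ : ℕ → P →* Q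
  /-- window size -/
  L : ℕ
  hMN : M ∣ N
  hL : 2 * L ≤ M
  hc : ∀ i (y : ZMod M), y.val < 2 * L → c i y = 1

namespace Dat

variable (D : Dat ι P Q M N)

/-- reduction of positions -/
def red (x : ZMod N) : ZMod M := ZMod.castHom D.hMN (ZMod M) x

/-- exponent homomorphism -/
def X : FreeGroup ι →* Multiplicative ℤ := FreeGroup.lift fun i => Multiplicative.ofAdd (D.χ i)

/-- exponent sum -/
def e (w : FreeGroup ι) : ℤ := (D.X w).toAdd

theorem e_mul (v w : FreeGroup ι) : D.e (v * w) = D.e v + D.e w := by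
  simp [e]

theorem e_inv (v : FreeGroup ι) : D.e v⁻¹ = - D.e v := by
  simp [e]

theorem e_of (i : ι) : D.e (FreeGroup.of i) = D.χ i := by
  simp [e, X]

/-- the coefficient homomorphism -/
def Λ : FreeGroup ι →* Wr P (Multiplicative (ZMod M)) :=
  FreeGroup.lift fun i => ⟨fun y => D.c i y.toAdd, Multiplicative.ofAdd (D.χ i : ZMod M)⟩

/-- the block index of a position -/
def κ (x : ZMod N) : ℕ := x.val / M

/-- the big homomorphism -/
def Θ : FreeGroup ι →* Wr Q (Multiplicative (ZMod N)) :=
  FreeGroup.lift fun i => ⟨fun x => D.ζ (κ (M := M) x.toAdd) (D.c i (D.red x.toAdd)),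
    Multiplicative.ofAdd (D.χ i : ZMod N)⟩

theorem Λ_q (w : FreeGroup ι) : (D.Λ w).q = Multiplicative.ofAdd (D.e w : ZMod M) := by
  induction w using FreeGroup.induction_on with
  | C1 => simp [e]
  | of i => simp [Λ, e_of]
  | inv_of i _ => rw [map_inv, Wr.inv_q, e_inv]; simp [Λ, e_of]
  | mul x y hx hy => rw [map_mul, Wr.mul_q, hx, hy, e_mul]; push_cast; rfl

theorem Θ_q (w : FreeGroup ι) : (D.Θ w).q = Multiplicative.ofAdd (D.e w : ZMod N) := by
  induction w using FreeGroup.induction_on with
  | C1 => simp [e]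
  | of i => simp [Θ, e_of]
  | inv_of i _ => rw [map_inv, Wr.inv_q, e_inv]; simp [Θ, e_of]
  | mul x y hx hy => rw [map_mul, Wr.mul_q, hx, hy, e_mul]; push_cast; rfl

theorem red_val (x : ZMod N) : (D.red x).val = x.val % M := by
  have h : D.red x = ((x.val : ℕ) : ZMod M) := by
    rw [red]
    conv_lhs => rw [← ZMod.natCast_zmod_val x]
    rw [map_natCast]
  rw [h, ZMod.val_natCast]

/-- the coefficient seen from a nearby position -/
theorem loc (x : ZMod N) (b : ℕ) (hb : b ≤ 2 * D.L) (i : ι) :
    D.ζ (κ (M := M) (x + (b : ZMod N))) (D.c i (D.red (x + (b : ZMod N)))) =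
      D.ζ (κ (M := M) x) (D.c i (D.red (x + (b : ZMod N)))) := by
  by_cases h : κ (M := M) (x + (b : ZMod N)) = κ (M := M) x
  · rw [h]
  · have h1 : D.c i (D.red (x + (b : ZMod N))) = 1 := by
      apply D.hc
      rw [D.red_val]
      have hx : x.val < N := ZMod.val_lt x
      have hv : (x + (b : ZMod N)).val = (x.val + b) % N := by
        rw [ZMod.val_add, ZMod.val_natCast, Nat.add_mod_mod]
      obtain ⟨d, hd⟩ := D.hMN
      have hM : 0 < M := Nat.pos_of_ne_zero (NeZero.ne M)
      have hmm : (x.val + b) % N % M = (x.val + b) % M := Nat.mod_mod_of_dvd _ D.hMN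
      rw [hv, hmm]
      by_contra hlt
      push Not at hlt
      apply h
      simp only [κ]
      rw [hv]
      -- no wrap and same block
      have hq := Nat.div_add_mod x.val M
      have hr : x.val % M < M := Nat.mod_lt _ hM
      have hq' := Nat.div_add_mod (x.val + b) M
      set a := x.val / M with ha
      set a' := (x.val + b) / M with ha'
      have hbM : b ≤ M := hb.trans D.hL
      have e1 : a' = a := by
        have h2 : a ≤ a' := Nat.div_le_div_right (Nat.le_add_right _ _)
        rcases h2.lt_or_eq with h3 | h3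
        · exfalso
          have h4 : M * (a + 1) ≤ M * a' := Nat.mul_le_mul_left M h3
          have h5 : M * (a + 1) = M * a + M := by ring
          -- residue of x + b is < 2L
          omega
        · exact h3.symm
      have h6 : (x.val + b) % N = x.val + b := by
        apply Nat.mod_eq_of_lt
        -- x.val + b < M * (a + 1) ≤ N
        have h7 : a < d := by
          rw [ha]
          refine Nat.div_lt_of_lt_mul ?_
          rw [← hd]; exact hx
        have h8 : M * (a + 1) ≤ M * d := Nat.mul_le_mul_left M h7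
        rw [← hd] at h8
        have h9 : (x.val + b) % M < M := Nat.mod_lt _ hM
        have h5 : M * (a + 1) = M * a + M := by ring
        rw [e1] at hq'
        omega
      rw [h6, ← ha', e1]
    rw [h1, map_one, map_one]

end Dat

/-- the local form of the big homomorphism -/
theorem local_form (χ : ι → ℤ) (w : FreeGroup ι) : ∃ B : ℕ,
    ∀ (P Q : Type) [CommGroup P] [Group Q] (M N : ℕ) [NeZero M] [NeZero N]
      (D : Dat ι P Q M N), D.χ = χ → ∀ (x : ZMod N) (t : ℤ), t.natAbs + B ≤ D.L →
      (D.Θ w).f (Multiplicative.ofAdd (x + (t : ZMod N))) =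
        D.ζ (Dat.κ (M := M) (x - (D.L : ZMod N)))
          ((D.Λ w).f (Multiplicative.ofAdd (D.red (x + (t : ZMod N))))) := by
  have hgen : ∀ i : ι, ∀ (P Q : Type) [CommGroup P] [Group Q] (M N : ℕ) [NeZero M] [NeZero N]
      (D : Dat ι P Q M N), D.χ = χ → ∀ (x : ZMod N) (t : ℤ), t.natAbs ≤ D.L →
      (D.Θ (FreeGroup.of i)).f (Multiplicative.ofAdd (x + (t : ZMod N))) =
        D.ζ (Dat.κ (M := M) (x - (D.L : ZMod N)))
          ((D.Λ (FreeGroup.of i)).f (Multiplicative.ofAdd (D.red (x + (t : ZMod N))))) := by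
    intro i P Q _ _ M N _ _ D _ x t ht
    have h1 : ∃ b : ℕ, (b : ℤ) = t + D.L ∧ b ≤ 2 * D.L := by
      refine ⟨(t + D.L).toNat, ?_, ?_⟩
      · rw [Int.toNat_of_nonneg]; omega
      · omega
    obtain ⟨b, hb, hb2⟩ := h1
    have h2 : x + (t : ZMod N) = (x - (D.L : ZMod N)) + (b : ZMod N) := by
      have h3 : ((b : ℤ) : ZMod N) = ((t + D.L : ℤ) : ZMod N) := by rw [hb]
      push_cast at h3
      rw [h3]; ring
    rw [h2]
    simp only [Dat.Θ, Dat.Λ, FreeGroup.lift_apply_of, toAdd_ofAdd]
    exact D.loc _ b hb2 i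
  induction w using FreeGroup.induction_on with
  | C1 =>
    refine ⟨0, ?_⟩
    intro P Q _ _ M N _ _ D _ x t _
    simp
  | of i =>
    exact ⟨0, fun P Q _ _ M N _ _ D hD x t ht => hgen i P Q M N D hD x t (by omega)⟩
  | inv_of i _ =>
    refine ⟨(χ i).natAbs, ?_⟩
    intro P Q _ _ M N _ _ D hD x t ht
    rw [map_inv, map_inv, Wr.inv_f, Wr.inv_f, D.Θ_q, D.Λ_q, D.e_of, hD, map_inv]
    have h1 := hgen i P Q M N D hD x (t - χ i) (by omega)
    have h2 : Multiplicative.ofAdd (x + (t : ZMod N)) * (Multiplicative.ofAdd (χ i : ZMod N))⁻¹ =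
        Multiplicative.ofAdd (x + ((t - χ i : ℤ) : ZMod N)) := by
      rw [← ofAdd_neg, ← ofAdd_add]
      congr 1
      push_cast
      ring
    have h3 : Multiplicative.ofAdd (D.red (x + (t : ZMod N))) *
        (Multiplicative.ofAdd (χ i : ZMod M))⁻¹ =
        Multiplicative.ofAdd (D.red (x + ((t - χ i : ℤ) : ZMod N))) := by
      rw [← ofAdd_neg, ← ofAdd_add]
      congr 1
      simp only [Dat.red, map_add, map_intCast]
      push_cast
      ring
    rw [h2, h3, h1]
  | mul v w hv hw =>
    obtain ⟨Bv, hv⟩ := hv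
    obtain ⟨Bw, hw⟩ := hw
    refine ⟨Bv + Bw + ((FreeGroup.lift (fun i => Multiplicative.ofAdd (χ i)) v :
      Multiplicative ℤ).toAdd).natAbs, ?_⟩
    intro P Q _ _ M N _ _ D hD x t ht
    have he : D.e v = (FreeGroup.lift (fun i => Multiplicative.ofAdd (χ i)) v :
      Multiplicative ℤ).toAdd := by rw [Dat.e, Dat.X, hD]
    rw [← he] at ht
    rw [map_mul, map_mul, Wr.mul_f, Wr.mul_f, D.Θ_q, D.Λ_q, map_mul]
    have h2 : Multiplicative.ofAdd (x + (t : ZMod N)) * (Multiplicative.ofAdd (D.e v : ZMod N)) =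
        Multiplicative.ofAdd (x + ((t + D.e v : ℤ) : ZMod N)) := by
      rw [← ofAdd_add]
      congr 1
      push_cast
      ring
    have h3 : Multiplicative.ofAdd (D.red (x + (t : ZMod N))) *
        (Multiplicative.ofAdd (D.e v : ZMod M)) =
        Multiplicative.ofAdd (D.red (x + ((t + D.e v : ℤ) : ZMod N))) := by
      rw [← ofAdd_add]
      congr 1
      simp only [Dat.red, map_add, map_intCast]
      push_cast
      ring
    rw [h2, h3, hv P Q M N D hD x t (by omega), hw P Q M N D hD x (t + D.e v) (by omega)]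

end

end Pool.H22.BH
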